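import Pool.Agent.H802.RS.C1

namespace Pool.Agent.H802.RS

open Finset

theorem C_bd_eq (a b : Bool) : (if a = b then 0 else 1) = Cbd a b := by
  cases a <;> cases b <;> rfl

theorem C_bd_tri (a b c : Bool) : Cbd a c ≤ Cbd a b + Cbd b c := by
  revert a b c; decide

theorem C_bd_comm (a b : Bool) : Cbd a b = Cbd b a := by
  revert a b; decide

theorem C_s2 (g : ℕ → ℕ) (n : ℕ) :
    ∑ a ∈ range (2 * n), g a = ∑ p ∈ range n, (g (2 * p) + g (2 * p + 1)) := by
  induction n with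
  | zero => simp
  | succ n ih =>
    rw [show 2 * (n + 1) = 2 * n + 1 + 1 by ring, sum_range_succ, sum_range_succ, ih,
      sum_range_succ]
    ring

theorem C_s4 (g : ℕ → ℕ) (n : ℕ) :
    ∑ a ∈ range (4 * n), g a =
      ∑ p ∈ range n, (g (4 * p) + g (4 * p + 1) + g (4 * p + 2) + g (4 * p + 3)) := by
  induction n with
  | zero => simp
  | succ n ih =>
    rw [show 4 * (n + 1) = 4 * n + 1 + 1 + 1 + 1 by ring, sum_range_succ, sum_range_succ,
      sum_range_succ, sum_range_succ, ih, sum_range_succ]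
    ring

theorem C_s8 (g : ℕ → ℕ) (n : ℕ) :
    ∑ a ∈ range (8 * n), g a =
      ∑ p ∈ range n, (g (8 * p) + g (8 * p + 1) + g (8 * p + 2) + g (8 * p + 3) +
        g (8 * p + 4) + g (8 * p + 5) + g (8 * p + 6) + g (8 * p + 7)) := by
  induction n with
  | zero => simp
  | succ n ih =>
    rw [show 8 * (n + 1) = 8 * n + 1 + 1 + 1 + 1 + 1 + 1 + 1 + 1 by ring, sum_range_succ,
      sum_range_succ, sum_range_succ, sum_range_succ, sum_range_succ, sum_range_succ,
      sum_range_succ, sum_range_succ, ih, sum_range_succ]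
    ring

/-- changes at the edges between the levels `j` and `j + 1` -/
def CT (A : ℕ → ℕ → Bool) (j : ℕ) : ℕ :=
  ∑ a ∈ range (wd (j + 1)), Cbd (A (j + 1) a) (A j (par j a))

def CP (k : ℕ) : ℕ := 3 * 2 ^ (2 * k)

theorem C_W (k : ℕ) : W k = 2 * CP k := by
  simp only [W, CP, pow_mul]; norm_num; ring

theorem C_W1 (k : ℕ) : W (k + 1) = 8 * CP k := by
  simp only [W, CP, pow_mul, pow_succ]; norm_num; ring

theorem C_w1 (k : ℕ) : wd (2 * k + 1) = CP k := rfl

theorem C_w2 (k : ℕ) : wd (2 * k + 2) = 2 * CP k := by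
  simp only [wd, CP, pow_succ]; ring

theorem C_w3 (k : ℕ) : wd (2 * k + 3) = 4 * CP k := by
  simp only [wd, CP, pow_succ]; ring

theorem C_w4 (k : ℕ) : wd (2 * k + 4) = 8 * CP k := by
  simp only [wd, CP, pow_succ]; ring

/-- block data at the cherry `p` -/
def CD (k : ℕ) (A : ℕ → ℕ → Bool) (p : ℕ) : ℕ :=
  CdB (A (2 * k + 1) p) (A (2 * k + 2) (2 * p)) (A (2 * k + 2) (2 * p + 1))
    (A (2 * k + 3) (4 * p)) (A (2 * k + 3) (4 * p + 1)) (A (2 * k + 3) (4 * p + 2))
    (A (2 * k + 3) (4 * p + 3))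
    (A (2 * k + 4) (8 * p)) (A (2 * k + 4) (8 * p + 1)) (A (2 * k + 4) (8 * p + 2))
    (A (2 * k + 4) (8 * p + 3)) (A (2 * k + 4) (8 * p + 4)) (A (2 * k + 4) (8 * p + 5))
    (A (2 * k + 4) (8 * p + 6)) (A (2 * k + 4) (8 * p + 7))

def CC (k : ℕ) (A : ℕ → ℕ → Bool) (p : ℕ) : Bool :=
  Ccc (A (2 * k + 1) p) (A (2 * k + 2) (2 * p)) (A (2 * k + 2) (2 * p + 1))
    (A (2 * k + 3) (4 * p)) (A (2 * k + 3) (4 * p + 1)) (A (2 * k + 3) (4 * p + 2))
    (A (2 * k + 3) (4 * p + 3))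
    (A (2 * k + 4) (8 * p)) (A (2 * k + 4) (8 * p + 1)) (A (2 * k + 4) (8 * p + 2))
    (A (2 * k + 4) (8 * p + 3)) (A (2 * k + 4) (8 * p + 4)) (A (2 * k + 4) (8 * p + 5))
    (A (2 * k + 4) (8 * p + 6)) (A (2 * k + 4) (8 * p + 7))

def CN (k : ℕ) (A : ℕ → ℕ → Bool) (p : ℕ) : ℕ :=
  CnB (A (2 * k + 1) p) (A (2 * k + 2) (2 * p)) (A (2 * k + 2) (2 * p + 1))
    (A (2 * k + 3) (4 * p)) (A (2 * k + 3) (4 * p + 1)) (A (2 * k + 3) (4 * p + 2))
    (A (2 * k + 3) (4 * p + 3))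
    (A (2 * k + 4) (8 * p)) (A (2 * k + 4) (8 * p + 1)) (A (2 * k + 4) (8 * p + 2))
    (A (2 * k + 4) (8 * p + 3)) (A (2 * k + 4) (8 * p + 4)) (A (2 * k + 4) (8 * p + 5))
    (A (2 * k + 4) (8 * p + 6)) (A (2 * k + 4) (8 * p + 7))

/-- outer edges -/
def CO (k : ℕ) (A : ℕ → ℕ → Bool) : ℕ :=
  ∑ a ∈ range (W k), ∑ s : Bool, Cbd (A (2 * k + 4) (ext a s))
    (A (2 * k + 4) (ext (sg k a s).1 (sg k a s).2))

theorem C_cut2 (k : ℕ) (A : ℕ → ℕ → Bool) :
    cut2 k A = 2 * ∑ j ∈ range (2 * k + 2), CT A j +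
      ∑ a ∈ range (W k), ∑ s : Bool, Cbd (A (2 * k + 2) a) (A (2 * k + 2) (nb k a s)) := by
  unfold cut2 CT
  simp only [C_bd_eq]

theorem C_nb_false (k b : ℕ) : nb (k + 1) b false = 4 * (b / 4) + (3 - b % 4) := rfl

theorem C_outer (k : ℕ) (A : ℕ → ℕ → Bool) :
    ∑ a ∈ range (W (k + 1)), ∑ s : Bool, Cbd (A (2 * k + 4) a) (A (2 * k + 4) (nb (k + 1) a s)) =
      CO k A + 2 * ∑ p ∈ range (CP k), (Cbd (A (2 * k + 4) (8 * p)) (A (2 * k + 4) (8 * p + 3)) +
        Cbd (A (2 * k + 4) (8 * p + 1)) (A (2 * k + 4) (8 * p + 2)) +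
        Cbd (A (2 * k + 4) (8 * p + 4)) (A (2 * k + 4) (8 * p + 7)) +
        Cbd (A (2 * k + 4) (8 * p + 5)) (A (2 * k + 4) (8 * p + 6)) +
        Cbd (A (2 * k + 4) (8 * p + 1)) (A (2 * k + 4) (8 * p + 4)) +
        Cbd (A (2 * k + 4) (8 * p + 3)) (A (2 * k + 4) (8 * p + 6))) := by
  unfold CO
  rw [C_W1, C_s8, C_W, C_s2, mul_sum, ← sum_add_distrib]
  apply sum_congr rfl
  intro p _
  have e0 : nb (k + 1) (8 * p) false = 8 * p + 3 := by rw [C_nb_false]; omega
  have e1 : nb (k + 1) (8 * p + 1) false = 8 * p + 2 := by rw [C_nb_false]; omega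
  have e2 : nb (k + 1) (8 * p + 2) false = 8 * p + 1 := by rw [C_nb_false]; omega
  have e3 : nb (k + 1) (8 * p + 3) false = 8 * p := by rw [C_nb_false]; omega
  have e4 : nb (k + 1) (8 * p + 4) false = 8 * p + 7 := by rw [C_nb_false]; omega
  have e5 : nb (k + 1) (8 * p + 5) false = 8 * p + 6 := by rw [C_nb_false]; omega
  have e6 : nb (k + 1) (8 * p + 6) false = 8 * p + 5 := by rw [C_nb_false]; omega
  have e7 : nb (k + 1) (8 * p + 7) false = 8 * p + 4 := by rw [C_nb_false]; omega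
  have d0 : nb (k + 1) (8 * p) true = ext (sg k (2 * p) false).1 (sg k (2 * p) false).2 := by
    have h1 : 8 * p / 4 = 2 * p := by omega
    have h2 : 8 * p % 4 = 0 := by omega
    have h3 : 8 * p % 2 = 0 := by omega
    have h4 : 2 * p % 2 = 0 := by omega
    simp [nb, sg, h1, h2, h3, h4]
  have d2 : nb (k + 1) (8 * p + 2) true = ext (sg k (2 * p) true).1 (sg k (2 * p) true).2 := by
    have h1 : (8 * p + 2) / 4 = 2 * p := by omega
    have h2 : (8 * p + 2) % 4 = 2 := by omega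
    have h3 : (8 * p + 2) % 2 = 0 := by omega
    have h4 : 2 * p % 2 = 0 := by omega
    simp [nb, sg, h1, h2, h3, h4]
  have d1 : nb (k + 1) (8 * p + 1) true = 8 * p + 4 := by
    have h1 : (8 * p + 1) / 4 = 2 * p := by omega
    have h3 : (8 * p + 1) % 2 = 1 := by omega
    have h4 : 2 * p % 2 = 0 := by omega
    simp [nb, sg, h1, h3, h4]
  have d3 : nb (k + 1) (8 * p + 3) true = 8 * p + 6 := by
    have h1 : (8 * p + 3) / 4 = 2 * p := by omega
    have h3 : (8 * p + 3) % 2 = 1 := by omega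
    have h4 : 2 * p % 2 = 0 := by omega
    simp [nb, sg, h1, h3, h4]
  have d4 : nb (k + 1) (8 * p + 4) true = 8 * p + 1 := by
    have h1 : (8 * p + 4) / 4 = 2 * p + 1 := by omega
    have h3 : (8 * p + 4) % 2 = 0 := by omega
    have h4 : (2 * p + 1) % 2 = 1 := by omega
    simp [nb, sg, h1, h3, h4]
  have d6 : nb (k + 1) (8 * p + 6) true = 8 * p + 3 := by
    have h1 : (8 * p + 6) / 4 = 2 * p + 1 := by omega
    have h3 : (8 * p + 6) % 2 = 0 := by omega
    have h4 : (2 * p + 1) % 2 = 1 := by omega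
    simp [nb, sg, h1, h3, h4]
  have d5 : nb (k + 1) (8 * p + 5) true =
      ext (sg k (2 * p + 1) false).1 (sg k (2 * p + 1) false).2 := by
    have h1 : (8 * p + 5) / 4 = 2 * p + 1 := by omega
    have h2 : (8 * p + 5) % 4 = 1 := by omega
    have h3 : (8 * p + 5) % 2 = 1 := by omega
    have h4 : (2 * p + 1) % 2 = 1 := by omega
    simp [nb, sg, h1, h2, h3, h4]
  have d7 : nb (k + 1) (8 * p + 7) true =
      ext (sg k (2 * p + 1) true).1 (sg k (2 * p + 1) true).2 := by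
    have h1 : (8 * p + 7) / 4 = 2 * p + 1 := by omega
    have h2 : (8 * p + 7) % 4 = 3 := by omega
    have h3 : (8 * p + 7) % 2 = 1 := by omega
    have h4 : (2 * p + 1) % 2 = 1 := by omega
    simp [nb, sg, h1, h2, h3, h4]
  have x0 : ext (2 * p) false = 8 * p := by
    have h4 : 2 * p % 2 = 0 := by omega
    simp [ext, h4]; omega
  have x2 : ext (2 * p) true = 8 * p + 2 := by
    have h4 : 2 * p % 2 = 0 := by omega
    simp [ext, h4]; omega
  have x5 : ext (2 * p + 1) false = 8 * p + 5 := by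
    have h4 : (2 * p + 1) % 2 = 1 := by omega
    simp [ext, h4]; omega
  have x7 : ext (2 * p + 1) true = 8 * p + 7 := by
    have h4 : (2 * p + 1) % 2 = 1 := by omega
    simp [ext, h4]; omega
  simp only [Fintype.sum_bool, e0, e1, e2, e3, e4, e5, e6, e7, d0, d1, d2, d3, d4, d5, d6, d7,
    x0, x2, x5, x7]
  rw [C_bd_comm (A (2 * k + 4) (8 * p + 3)) (A (2 * k + 4) (8 * p)),
    C_bd_comm (A (2 * k + 4) (8 * p + 2)) (A (2 * k + 4) (8 * p + 1)),
    C_bd_comm (A (2 * k + 4) (8 * p + 7)) (A (2 * k + 4) (8 * p + 4)),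
    C_bd_comm (A (2 * k + 4) (8 * p + 6)) (A (2 * k + 4) (8 * p + 5)),
    C_bd_comm (A (2 * k + 4) (8 * p + 4)) (A (2 * k + 4) (8 * p + 1)),
    C_bd_comm (A (2 * k + 4) (8 * p + 6)) (A (2 * k + 4) (8 * p + 3))]
  ring

theorem C_T1 (k : ℕ) (A : ℕ → ℕ → Bool) : CT A (2 * k + 1) =
    ∑ p ∈ range (CP k), (Cbd (A (2 * k + 2) (2 * p)) (A (2 * k + 1) p) +
      Cbd (A (2 * k + 2) (2 * p + 1)) (A (2 * k + 1) p)) := by
  unfold CT
  rw [show 2 * k + 1 + 1 = 2 * k + 2 from rfl, C_w2, C_s2]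
  apply sum_congr rfl
  intro p _
  have h1 : par (2 * k + 1) (2 * p) = p := by simp [par]
  have h2 : par (2 * k + 1) (2 * p + 1) = p := by simp [par]; omega
  rw [h1, h2]

theorem C_T2 (k : ℕ) (A : ℕ → ℕ → Bool) : CT A (2 * k + 2) =
    ∑ p ∈ range (CP k), (Cbd (A (2 * k + 3) (4 * p)) (A (2 * k + 2) (2 * p)) +
      Cbd (A (2 * k + 3) (4 * p + 1)) (A (2 * k + 2) (2 * p)) +
      Cbd (A (2 * k + 3) (4 * p + 2)) (A (2 * k + 2) (2 * p + 1)) +
      Cbd (A (2 * k + 3) (4 * p + 3)) (A (2 * k + 2) (2 * p + 1))) := by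
  unfold CT
  rw [show 2 * k + 2 + 1 = 2 * k + 3 from rfl, C_w3, C_s4]
  apply sum_congr rfl
  intro p _
  have h1 : par (2 * k + 2) (4 * p) = 2 * p := by simp [par]; omega
  have h2 : par (2 * k + 2) (4 * p + 1) = 2 * p := by simp [par]; omega
  have h3 : par (2 * k + 2) (4 * p + 2) = 2 * p + 1 := by simp [par]; omega
  have h4 : par (2 * k + 2) (4 * p + 3) = 2 * p + 1 := by simp [par]; omega
  rw [h1, h2, h3, h4]

theorem C_T3 (k : ℕ) (A : ℕ → ℕ → Bool) : CT A (2 * k + 3) =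
    ∑ p ∈ range (CP k), (Cbd (A (2 * k + 4) (8 * p)) (A (2 * k + 3) (4 * p)) +
      Cbd (A (2 * k + 4) (8 * p + 1)) (A (2 * k + 3) (4 * p)) +
      Cbd (A (2 * k + 4) (8 * p + 2)) (A (2 * k + 3) (4 * p + 1)) +
      Cbd (A (2 * k + 4) (8 * p + 3)) (A (2 * k + 3) (4 * p + 1)) +
      Cbd (A (2 * k + 4) (8 * p + 4)) (A (2 * k + 3) (4 * p + 2)) +
      Cbd (A (2 * k + 4) (8 * p + 5)) (A (2 * k + 3) (4 * p + 2)) +
      Cbd (A (2 * k + 4) (8 * p + 6)) (A (2 * k + 3) (4 * p + 3)) +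
      Cbd (A (2 * k + 4) (8 * p + 7)) (A (2 * k + 3) (4 * p + 3))) := by
  unfold CT
  rw [show 2 * k + 3 + 1 = 2 * k + 4 from rfl, C_w4, C_s8]
  apply sum_congr rfl
  intro p _
  have h0 : par (2 * k + 3) (8 * p) = 4 * p := by simp [par]; omega
  have h1 : par (2 * k + 3) (8 * p + 1) = 4 * p := by simp [par]; omega
  have h2 : par (2 * k + 3) (8 * p + 2) = 4 * p + 1 := by simp [par]; omega
  have h3 : par (2 * k + 3) (8 * p + 3) = 4 * p + 1 := by simp [par]; omega
  have h4 : par (2 * k + 3) (8 * p + 4) = 4 * p + 2 := by simp [par]; omega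
  have h5 : par (2 * k + 3) (8 * p + 5) = 4 * p + 2 := by simp [par]; omega
  have h6 : par (2 * k + 3) (8 * p + 6) = 4 * p + 3 := by simp [par]; omega
  have h7 : par (2 * k + 3) (8 * p + 7) = 4 * p + 3 := by simp [par]; omega
  rw [h0, h1, h2, h3, h4, h5, h6, h7]

/-- main identity for the big graph -/
theorem C_big (k : ℕ) (A : ℕ → ℕ → Bool) : cut2 (k + 1) A =
    2 * ∑ j ∈ range (2 * k + 1), CT A j + CO k A + 2 * ∑ p ∈ range (CP k), CD k A p := by
  rw [C_cut2, show 2 * (k + 1) + 2 = 2 * k + 1 + 1 + 1 + 1 by ring, sum_range_succ,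
    sum_range_succ, sum_range_succ]
  rw [show 2 * k + 1 + 1 + 1 + 1 = 2 * k + 4 from rfl, C_outer, show 2 * k + 1 + 1 + 1 = 2 * k + 3 from rfl,
    show 2 * k + 1 + 1 = 2 * k + 2 from rfl, C_T1, C_T2, C_T3]
  have : ∑ p ∈ range (CP k), CD k A p =
    ∑ p ∈ range (CP k), (Cbd (A (2 * k + 2) (2 * p)) (A (2 * k + 1) p) +
      Cbd (A (2 * k + 2) (2 * p + 1)) (A (2 * k + 1) p)) +
    ∑ p ∈ range (CP k), (Cbd (A (2 * k + 3) (4 * p)) (A (2 * k + 2) (2 * p)) +
      Cbd (A (2 * k + 3) (4 * p + 1)) (A (2 * k + 2) (2 * p)) +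
      Cbd (A (2 * k + 3) (4 * p + 2)) (A (2 * k + 2) (2 * p + 1)) +
      Cbd (A (2 * k + 3) (4 * p + 3)) (A (2 * k + 2) (2 * p + 1))) +
    ∑ p ∈ range (CP k), (Cbd (A (2 * k + 4) (8 * p)) (A (2 * k + 3) (4 * p)) +
      Cbd (A (2 * k + 4) (8 * p + 1)) (A (2 * k + 3) (4 * p)) +
      Cbd (A (2 * k + 4) (8 * p + 2)) (A (2 * k + 3) (4 * p + 1)) +
      Cbd (A (2 * k + 4) (8 * p + 3)) (A (2 * k + 3) (4 * p + 1)) +
      Cbd (A (2 * k + 4) (8 * p + 4)) (A (2 * k + 3) (4 * p + 2)) +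
      Cbd (A (2 * k + 4) (8 * p + 5)) (A (2 * k + 3) (4 * p + 2)) +
      Cbd (A (2 * k + 4) (8 * p + 6)) (A (2 * k + 3) (4 * p + 3)) +
      Cbd (A (2 * k + 4) (8 * p + 7)) (A (2 * k + 3) (4 * p + 3))) +
    ∑ p ∈ range (CP k), (Cbd (A (2 * k + 4) (8 * p)) (A (2 * k + 4) (8 * p + 3)) +
        Cbd (A (2 * k + 4) (8 * p + 1)) (A (2 * k + 4) (8 * p + 2)) +
        Cbd (A (2 * k + 4) (8 * p + 4)) (A (2 * k + 4) (8 * p + 7)) +
        Cbd (A (2 * k + 4) (8 * p + 5)) (A (2 * k + 4) (8 * p + 6)) +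
        Cbd (A (2 * k + 4) (8 * p + 1)) (A (2 * k + 4) (8 * p + 4)) +
        Cbd (A (2 * k + 4) (8 * p + 3)) (A (2 * k + 4) (8 * p + 6))) := by
    rw [← sum_add_distrib, ← sum_add_distrib, ← sum_add_distrib]
    apply sum_congr rfl
    intro p _
    unfold CD CdB
    ring
  rw [this]
  ring

/-- the involution preserves sums -/
theorem C_inv (k : ℕ) (hI : Basic k) (G : ℕ → Bool → ℕ) :
    ∑ a ∈ range (W k), ∑ s : Bool, G (sg k a s).1 (sg k a s).2 =
      ∑ a ∈ range (W k), ∑ s : Bool, G a s := by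
  rw [← sum_product', ← sum_product']
  refine sum_nbij' (fun x => sg k x.1 x.2) (fun x => sg k x.1 x.2) ?_ ?_ ?_ ?_ ?_
  · intro x hx
    simp only [mem_product, mem_range, mem_univ, and_true] at hx ⊢
    exact hI.lt _ _ hx
  · intro x hx
    simp only [mem_product, mem_range, mem_univ, and_true] at hx ⊢
    exact hI.lt _ _ hx
  · intro x hx
    simp only [mem_product, mem_range, mem_univ, and_true] at hx ⊢
    exact hI.inv _ _ hx
  · intro x hx
    simp only [mem_product, mem_range, mem_univ, and_true] at hx ⊢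
    exact hI.inv _ _ hx
  · intro x _
    rfl

/-- the contracted assignment -/
def CA (k : ℕ) (A : ℕ → ℕ → Bool) (f2 f1 f3 : ℕ → Bool) (j a : ℕ) : Bool :=
  if j ≤ 2 * k then A j a else if j = 2 * k + 1 then f2 a else
    if a % 2 = 0 then f1 (a / 2) else f3 (a / 2)

theorem C_small (k : ℕ) (hI : Basic k) (A : ℕ → ℕ → Bool) (f2 f1 f3 : ℕ → Bool) :
    cut2 k (CA k A f2 f1 f3) ≤ 2 * ∑ j ∈ range (2 * k + 1), CT A j + CO k A +
      2 * ∑ p ∈ range (CP k), CcB (f2 p) (f1 p) (f3 p) (A (2 * k + 1) p)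
        (A (2 * k + 4) (8 * p)) (A (2 * k + 4) (8 * p + 2)) (A (2 * k + 4) (8 * p + 5))
        (A (2 * k + 4) (8 * p + 7)) := by
  set B := CA k A f2 f1 f3 with hB
  have b0 : ∀ j a, j ≤ 2 * k → B j a = A j a := by
    intro j a h; simp [hB, CA, h]
  have b1 : ∀ a, B (2 * k + 1) a = f2 a := by
    intro a; simp [hB, CA]
  have b2 : ∀ p, B (2 * k + 2) (2 * p) = f1 p := by
    intro p; simp [hB, CA]
  have b3 : ∀ p, B (2 * k + 2) (2 * p + 1) = f3 p := by
    intro p
    have h1 : (2 * p + 1) % 2 = 1 := by omega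
    have h2 : (2 * p + 1) / 2 = p := by omega
    simp [hB, CA, h1, h2]
  rw [C_cut2, sum_range_succ, sum_range_succ, C_T1]
  rw [sum_range_succ (fun j => CT A j)]
  have hT0 : ∑ j ∈ range (2 * k), CT B j = ∑ j ∈ range (2 * k), CT A j := by
    apply sum_congr rfl
    intro j hj
    rw [mem_range] at hj
    unfold CT
    apply sum_congr rfl
    intro a _
    rw [b0 _ _ (by omega), b0 _ _ (by omega)]
  have hT1 : CT B (2 * k) ≤ CT A (2 * k) +
      ∑ p ∈ range (CP k), Cbd (f2 p) (A (2 * k + 1) p) := by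
    unfold CT
    rw [C_w1, ← sum_add_distrib]
    apply sum_le_sum
    intro p _
    rw [b0 _ _ le_rfl, b1]
    have := C_bd_tri (f2 p) (A (2 * k + 1) p) (A (2 * k) (par (2 * k) p))
    omega
  have hO : ∑ a ∈ range (W k), ∑ s : Bool, Cbd (B (2 * k + 2) a) (B (2 * k + 2) (nb k a s)) ≤
      CO k A + 2 * ∑ a ∈ range (W k), ∑ s : Bool,
        Cbd (B (2 * k + 2) a) (A (2 * k + 4) (ext a s)) := by
    have h1 := C_inv k hI (fun a s => Cbd (B (2 * k + 2) a) (A (2 * k + 4) (ext a s)))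
    have h2 : ∑ a ∈ range (W k), ∑ s : Bool, Cbd (B (2 * k + 2) a) (B (2 * k + 2) (nb k a s)) ≤
        ∑ a ∈ range (W k), ∑ s : Bool, (Cbd (A (2 * k + 4) (ext a s))
          (A (2 * k + 4) (ext (sg k a s).1 (sg k a s).2)) +
          Cbd (B (2 * k + 2) a) (A (2 * k + 4) (ext a s)) +
          Cbd (B (2 * k + 2) (sg k a s).1) (A (2 * k + 4) (ext (sg k a s).1 (sg k a s).2))) := by
      apply sum_le_sum
      intro a _
      apply sum_le_sum
      intro s _
      have t1 := C_bd_tri (B (2 * k + 2) a) (A (2 * k + 4) (ext a s)) (B (2 * k + 2) (nb k a s))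
      have t2 := C_bd_tri (A (2 * k + 4) (ext a s))
        (A (2 * k + 4) (ext (sg k a s).1 (sg k a s).2)) (B (2 * k + 2) (nb k a s))
      have t3 := C_bd_comm (A (2 * k + 4) (ext (sg k a s).1 (sg k a s).2))
        (B (2 * k + 2) (nb k a s))
      have t4 : nb k a s = (sg k a s).1 := rfl
      rw [t4] at t1 t2 t3 ⊢
      omega
    simp only [sum_add_distrib] at h2 h1 ⊢
    unfold CO
    omega
  have hF : ∑ a ∈ range (W k), ∑ s : Bool, Cbd (B (2 * k + 2) a) (A (2 * k + 4) (ext a s)) =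
      ∑ p ∈ range (CP k), (Cbd (f1 p) (A (2 * k + 4) (8 * p)) +
        Cbd (f1 p) (A (2 * k + 4) (8 * p + 2)) + Cbd (f3 p) (A (2 * k + 4) (8 * p + 5)) +
        Cbd (f3 p) (A (2 * k + 4) (8 * p + 7))) := by
    rw [C_W, C_s2]
    apply sum_congr rfl
    intro p _
    have x0 : ext (2 * p) false = 8 * p := by
      have h4 : 2 * p % 2 = 0 := by omega
      simp [ext, h4]; omega
    have x2 : ext (2 * p) true = 8 * p + 2 := by
      have h4 : 2 * p % 2 = 0 := by omega
      simp [ext, h4]; omega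
    have x5 : ext (2 * p + 1) false = 8 * p + 5 := by
      have h4 : (2 * p + 1) % 2 = 1 := by omega
      simp [ext, h4]; omega
    have x7 : ext (2 * p + 1) true = 8 * p + 7 := by
      have h4 : (2 * p + 1) % 2 = 1 := by omega
      simp [ext, h4]; omega
    simp only [Fintype.sum_bool, x0, x2, x5, x7, b2, b3]
    ring
  rw [hF] at hO
  have hC : ∑ p ∈ range (CP k), CcB (f2 p) (f1 p) (f3 p) (A (2 * k + 1) p)
        (A (2 * k + 4) (8 * p)) (A (2 * k + 4) (8 * p + 2)) (A (2 * k + 4) (8 * p + 5))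
        (A (2 * k + 4) (8 * p + 7)) =
      ∑ p ∈ range (CP k), (Cbd (f1 p) (f2 p) + Cbd (f3 p) (f2 p)) +
      ∑ p ∈ range (CP k), Cbd (f2 p) (A (2 * k + 1) p) +
      ∑ p ∈ range (CP k), (Cbd (f1 p) (A (2 * k + 4) (8 * p)) +
        Cbd (f1 p) (A (2 * k + 4) (8 * p + 2)) + Cbd (f3 p) (A (2 * k + 4) (8 * p + 5)) +
        Cbd (f3 p) (A (2 * k + 4) (8 * p + 7))) := by
    rw [← sum_add_distrib, ← sum_add_distrib]
    apply sum_congr rfl
    intro p _
    unfold CcB
    ring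
  have hT2 : ∑ p ∈ range (CP k), (Cbd (B (2 * k + 2) (2 * p)) (B (2 * k + 1) p) +
      Cbd (B (2 * k + 2) (2 * p + 1)) (B (2 * k + 1) p)) =
      ∑ p ∈ range (CP k), (Cbd (f1 p) (f2 p) + Cbd (f3 p) (f2 p)) := by
    apply sum_congr rfl
    intro p _
    rw [b1, b2, b3]
  rw [hC, hT2, hT0]
  omega

/-! ### counting -/

def CV (A : ℕ → ℕ → Bool) (b : Bool) (j : ℕ) : ℕ := ∑ a ∈ range (wd j), Cnt1 (A j a == b)

theorem C_c1_eq (x b : Bool) : (if x = b then 1 else 0) = Cnt1 (x == b) := by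
  cases x <;> cases b <;> rfl

theorem C_cnt_eq (k : ℕ) (A : ℕ → ℕ → Bool) (b : Bool) :
    cnt k A b = ∑ j ∈ range (2 * k + 3), CV A b j := by
  unfold cnt CV
  simp only [C_c1_eq]

theorem C_cnt_big (k : ℕ) (A : ℕ → ℕ → Bool) (b : Bool) :
    cnt (k + 1) A b = ∑ j ∈ range (2 * k + 1), CV A b j +
      ∑ p ∈ range (CP k), CN k (fun j a => A j a == b) p := by
  rw [C_cnt_eq, show 2 * (k + 1) + 3 = 2 * k + 1 + 1 + 1 + 1 + 1 by ring, sum_range_succ,
    sum_range_succ, sum_range_succ, sum_range_succ]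
  have h1 : CV A b (2 * k + 1) = ∑ p ∈ range (CP k), Cnt1 (A (2 * k + 1) p == b) := rfl
  have h2 : CV A b (2 * k + 2) = ∑ p ∈ range (CP k), (Cnt1 (A (2 * k + 2) (2 * p) == b) +
      Cnt1 (A (2 * k + 2) (2 * p + 1) == b)) := by
    unfold CV; rw [C_w2, C_s2]
  have h3 : CV A b (2 * k + 3) = ∑ p ∈ range (CP k), (Cnt1 (A (2 * k + 3) (4 * p) == b) +
      Cnt1 (A (2 * k + 3) (4 * p + 1) == b) + Cnt1 (A (2 * k + 3) (4 * p + 2) == b) +
      Cnt1 (A (2 * k + 3) (4 * p + 3) == b)) := by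
    unfold CV; rw [C_w3, C_s4]
  have h4 : CV A b (2 * k + 4) = ∑ p ∈ range (CP k), (Cnt1 (A (2 * k + 4) (8 * p) == b) +
      Cnt1 (A (2 * k + 4) (8 * p + 1) == b) + Cnt1 (A (2 * k + 4) (8 * p + 2) == b) +
      Cnt1 (A (2 * k + 4) (8 * p + 3) == b) + Cnt1 (A (2 * k + 4) (8 * p + 4) == b) +
      Cnt1 (A (2 * k + 4) (8 * p + 5) == b) + Cnt1 (A (2 * k + 4) (8 * p + 6) == b) +
      Cnt1 (A (2 * k + 4) (8 * p + 7) == b)) := by
    unfold CV; rw [C_w4, C_s8]
  rw [show 2 * k + 1 + 1 + 1 + 1 = 2 * k + 4 from rfl, show 2 * k + 1 + 1 + 1 = 2 * k + 3 from rfl,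
    show 2 * k + 1 + 1 = 2 * k + 2 from rfl, h1, h2, h3, h4, add_assoc, add_assoc, add_assoc]
  congr 1
  rw [← sum_add_distrib, ← sum_add_distrib, ← sum_add_distrib]
  apply sum_congr rfl
  intro p _
  unfold CN CnB
  ring

theorem C_CA_lo (k : ℕ) (A : ℕ → ℕ → Bool) (f2 f1 f3 : ℕ → Bool) (j a : ℕ) (h : j ≤ 2 * k) :
    CA k A f2 f1 f3 j a = A j a := by simp [CA, h]

theorem C_CA_1 (k : ℕ) (A : ℕ → ℕ → Bool) (f2 f1 f3 : ℕ → Bool) (a : ℕ) :
    CA k A f2 f1 f3 (2 * k + 1) a = f2 a := by simp [CA]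

theorem C_CA_2 (k : ℕ) (A : ℕ → ℕ → Bool) (f2 f1 f3 : ℕ → Bool) (p : ℕ) :
    CA k A f2 f1 f3 (2 * k + 2) (2 * p) = f1 p := by simp [CA]

theorem C_CA_3 (k : ℕ) (A : ℕ → ℕ → Bool) (f2 f1 f3 : ℕ → Bool) (p : ℕ) :
    CA k A f2 f1 f3 (2 * k + 2) (2 * p + 1) = f3 p := by
  have h1 : (2 * p + 1) % 2 = 1 := by omega
  have h2 : (2 * p + 1) / 2 = p := by omega
  simp [CA, h1, h2]

theorem C_cnt_small (k : ℕ) (A : ℕ → ℕ → Bool) (f2 f1 f3 : ℕ → Bool) (b : Bool) :
    cnt k (CA k A f2 f1 f3) b = ∑ j ∈ range (2 * k + 1), CV A b j +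
      ∑ p ∈ range (CP k), (Cnt1 (f2 p == b) + Cnt1 (f1 p == b) + Cnt1 (f3 p == b)) := by
  rw [C_cnt_eq, show 2 * k + 3 = 2 * k + 1 + 1 + 1 by ring, sum_range_succ, sum_range_succ]
  have h0 : ∑ j ∈ range (2 * k + 1), CV (CA k A f2 f1 f3) b j =
      ∑ j ∈ range (2 * k + 1), CV A b j := by
    apply sum_congr rfl
    intro j hj
    rw [mem_range] at hj
    unfold CV
    apply sum_congr rfl
    intro a _
    rw [C_CA_lo _ _ _ _ _ _ _ (by omega)]
  have h1 : CV (CA k A f2 f1 f3) b (2 * k + 1) = ∑ p ∈ range (CP k), Cnt1 (f2 p == b) := by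
    unfold CV
    rw [C_w1]
    apply sum_congr rfl
    intro a _
    rw [C_CA_1]
  have h2 : CV (CA k A f2 f1 f3) b (2 * k + 1 + 1) =
      ∑ p ∈ range (CP k), (Cnt1 (f1 p == b) + Cnt1 (f3 p == b)) := by
    unfold CV
    rw [show 2 * k + 1 + 1 = 2 * k + 2 from rfl, C_w2, C_s2]
    apply sum_congr rfl
    intro a _
    rw [C_CA_2, C_CA_3]
  rw [h0, h1, h2, add_assoc, ← sum_add_distrib]
  congr 1
  apply sum_congr rfl
  intro p _
  ring

theorem C_par_lt (k p : ℕ) (hp : p < CP k) : par (2 * k) p < wd (2 * k) := by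
  rcases k with _ | k
  · simp [par, wd]
  · have h1 : 2 * (k + 1) ≠ 0 := by omega
    have h2 : wd (2 * (k + 1)) = 3 * 2 ^ (2 * k + 1) := rfl
    have h3 : CP (k + 1) = 2 * (3 * 2 ^ (2 * k + 1)) := by
      unfold CP
      rw [show 2 * (k + 1) = 2 * k + 1 + 1 by ring, pow_succ]
      ring
    rw [h3] at hp
    rw [h2]
    simp only [par, h1, if_false]
    omega

theorem C_two_le (n : ℕ) (g : ℕ → ℕ) (p q : ℕ) (hp : p < n) (hq : q < n) (h : p ≠ q) :
    g p + g q ≤ ∑ x ∈ range n, g x := by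
  have h1 : ({p, q} : Finset ℕ) ⊆ range n := by
    intro x hx
    simp only [mem_insert, mem_singleton] at hx
    rw [mem_range]
    rcases hx with rfl | rfl <;> assumption
  have h2 := sum_le_sum_of_subset (f := g) h1
  rwa [sum_pair h] at h2

theorem C_one_le (n : ℕ) (g : ℕ → ℕ) (p : ℕ) (hp : p < n) :
    g p ≤ ∑ x ∈ range n, g x :=
  single_le_sum (f := g) (fun _ _ => Nat.zero_le _) (mem_range.mpr hp)

theorem C_key (k : ℕ) (hI : Basic k) (hG : Girthy k) (A : ℕ → ℕ → Bool)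
    (h0 : ∀ j a, j ≤ 2 * k → a < wd j → A j a = false)
    (h1 : ∀ p, p < CP k → CcB false false false (A (2 * k + 1) p)
        (A (2 * k + 4) (8 * p)) (A (2 * k + 4) (8 * p + 2)) (A (2 * k + 4) (8 * p + 5))
        (A (2 * k + 4) (8 * p + 7)) ≤ CD k A p) :
    (1 ≤ cnt (k + 1) A true → 6 ≤ cut2 (k + 1) A) ∧
    (2 ≤ cnt (k + 1) A true → 8 ≤ cut2 (k + 1) A) := by
  have hc : cnt (k + 1) A true = ∑ p ∈ range (CP k), CN k A p := by
    rw [C_cnt_big]
    have e1 : ∑ j ∈ range (2 * k + 1), CV A true j = 0 := by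
      apply sum_eq_zero
      intro j hj
      rw [mem_range] at hj
      unfold CV
      apply sum_eq_zero
      intro a ha
      rw [mem_range] at ha
      rw [h0 j a (by omega) ha]
      rfl
    rw [e1, zero_add]
    apply sum_congr rfl
    intro p _
    have hbt : ∀ x : Bool, (x == true) = x := by decide
    simp only [hbt]
  have hbig := C_big k A
  have hF : ∀ p, p < CP k → 1 ≤ CN k A p → 2 ≤ CD k A p := by
    intro p hp h
    exact (CF23 _ _ _ _ _ _ _ _ _ _ _ _ _ _ _).2.2 h (h1 p hp)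
  by_cases htwo : ∃ p q, p < CP k ∧ q < CP k ∧ p ≠ q ∧ 1 ≤ CN k A p ∧ 1 ≤ CN k A q
  · obtain ⟨p, q, hp, hq, hpq, h2, h3⟩ := htwo
    have h4 := C_two_le (CP k) (CD k A) p q hp hq hpq
    have h5 := hF p hp h2
    have h6 := hF q hq h3
    constructor <;> intro _ <;> omega
  · push Not at htwo
    by_cases hone : ∃ p, p < CP k ∧ 1 ≤ CN k A p
    · obtain ⟨p, hp, hN⟩ := hone
      have hz : ∀ q, q < CP k → q ≠ p → CN k A q = 0 := by
        intro q hq hqp
        have := htwo p q hp hq (Ne.symm hqp) hN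
        omega
      have hcp : cnt (k + 1) A true = CN k A p := by
        rw [hc]
        apply sum_eq_single_of_mem p (mem_range.mpr hp)
        intro q hq hqp
        exact hz q (mem_range.mp hq) hqp
      have hT : Cnt1 (A (2 * k + 1) p) ≤ ∑ j ∈ range (2 * k + 1), CT A j := by
        refine le_trans ?_ (C_one_le (2 * k + 1) (CT A) (2 * k) (by omega))
        unfold CT
        rw [C_w1]
        refine le_trans ?_ (C_one_le (CP k) _ p hp)
        rw [h0 (2 * k) _ le_rfl (C_par_lt k p hp)]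
        cases A (2 * k + 1) p <;> simp [Cnt1, Cbd]
      have hl : ∀ q, q < CP k → q ≠ p → A (2 * k + 4) (8 * q) = false ∧
          A (2 * k + 4) (8 * q + 2) = false ∧ A (2 * k + 4) (8 * q + 5) = false ∧
          A (2 * k + 4) (8 * q + 7) = false := by
        intro q hq hqp
        have hh := hz q hq hqp
        unfold CN CnB at hh
        have hx : ∀ b, Cnt1 b = 0 → b = false := by decide
        refine ⟨hx _ ?_, hx _ ?_, hx _ ?_, hx _ ?_⟩ <;> omega
      have x0 : ∀ p, ext (2 * p) false = 8 * p := by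
        intro p
        have h4 : 2 * p % 2 = 0 := by omega
        simp [ext, h4]; omega
      have x2 : ∀ p, ext (2 * p) true = 8 * p + 2 := by
        intro p
        have h4 : 2 * p % 2 = 0 := by omega
        simp [ext, h4]; omega
      have x5 : ∀ p, ext (2 * p + 1) false = 8 * p + 5 := by
        intro p
        have h4 : (2 * p + 1) % 2 = 1 := by omega
        simp [ext, h4]; omega
      have x7 : ∀ p, ext (2 * p + 1) true = 8 * p + 7 := by
        intro p
        have h4 : (2 * p + 1) % 2 = 1 := by omega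
        simp [ext, h4]; omega
      have hX : ∀ a s, a < W k → a / 2 ≠ p → A (2 * k + 4) (ext a s) = false := by
        intro a s ha hap
        have hq : a / 2 < CP k := by
          rw [C_W] at ha; omega
        obtain ⟨g1, g2, g3, g4⟩ := hl (a / 2) hq hap
        rcases Nat.even_or_odd' a with ⟨c, hc' | hc'⟩
        · have : a / 2 = c := by omega
          rw [this] at g1 g2
          subst hc'
          cases s
          · rw [x0]; exact g1
          · rw [x2]; exact g2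
        · have : a / 2 = c := by omega
          rw [this] at g3 g4
          subst hc'
          cases s
          · rw [x5]; exact g3
          · rw [x7]; exact g4
      have hO : 2 * (Cnt1 (A (2 * k + 4) (8 * p)) + Cnt1 (A (2 * k + 4) (8 * p + 2)) +
          Cnt1 (A (2 * k + 4) (8 * p + 5)) + Cnt1 (A (2 * k + 4) (8 * p + 7))) ≤ CO k A := by
        have i1 := C_inv k hI (fun a s => Cnt1 (A (2 * k + 4) (ext a s)))
        have i2 : ∑ a ∈ range (W k), ∑ s : Bool, (Cnt1 (A (2 * k + 4) (ext a s)) +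
            Cnt1 (A (2 * k + 4) (ext (sg k a s).1 (sg k a s).2))) ≤ CO k A := by
          unfold CO
          apply sum_le_sum
          intro a ha
          rw [mem_range] at ha
          apply sum_le_sum
          intro s _
          by_cases hap : a / 2 = p
          · have h5 := hG.sib a s ha
            rw [hap] at h5
            rw [hX (sg k a s).1 (sg k a s).2 (hI.lt a s ha) h5]
            cases A (2 * k + 4) (ext a s) <;> simp [Cnt1, Cbd]
          · rw [hX a s ha hap]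
            cases A (2 * k + 4) (ext (sg k a s).1 (sg k a s).2) <;> simp [Cnt1, Cbd]
        have i3 : ∑ a ∈ range (W k), ∑ s : Bool, Cnt1 (A (2 * k + 4) (ext a s)) =
            ∑ q ∈ range (CP k), (Cnt1 (A (2 * k + 4) (8 * q)) + Cnt1 (A (2 * k + 4) (8 * q + 2)) +
          Cnt1 (A (2 * k + 4) (8 * q + 5)) + Cnt1 (A (2 * k + 4) (8 * q + 7))) := by
          rw [C_W, C_s2]
          apply sum_congr rfl
          intro q _
          simp only [Fintype.sum_bool, x0, x2, x5, x7]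
          ring
        have i4 := C_one_le (CP k) (fun q => (Cnt1 (A (2 * k + 4) (8 * q)) +
          Cnt1 (A (2 * k + 4) (8 * q + 2)) +
          Cnt1 (A (2 * k + 4) (8 * q + 5)) + Cnt1 (A (2 * k + 4) (8 * q + 7)))) p hp
        simp only [sum_add_distrib] at i1 i2 i3 i4 ⊢
        omega
      have hD := C_one_le (CP k) (CD k A) p hp
      have hF1 := (CF23 (A (2 * k + 1) p) (A (2 * k + 2) (2 * p)) (A (2 * k + 2) (2 * p + 1))
        (A (2 * k + 3) (4 * p)) (A (2 * k + 3) (4 * p + 1)) (A (2 * k + 3) (4 * p + 2))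
        (A (2 * k + 3) (4 * p + 3))
        (A (2 * k + 4) (8 * p)) (A (2 * k + 4) (8 * p + 1)) (A (2 * k + 4) (8 * p + 2))
        (A (2 * k + 4) (8 * p + 3)) (A (2 * k + 4) (8 * p + 4)) (A (2 * k + 4) (8 * p + 5))
        (A (2 * k + 4) (8 * p + 6)) (A (2 * k + 4) (8 * p + 7)))
      obtain ⟨j1, j2, -⟩ := hF1
      change (1 ≤ CN k A p → 3 ≤ CD k A p + _) at j1
      change (2 ≤ CN k A p → 4 ≤ CD k A p + _) at j2
      rw [hcp]
      constructor
      · intro hx
        have := j1 hx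
        omega
      · intro hx
        have := j2 hx
        omega
    · push Not at hone
      have : cnt (k + 1) A true = 0 := by
        rw [hc]
        apply sum_eq_zero
        intro p hp
        have := hone p (mem_range.mp hp)
        omega
      rw [this]
      constructor <;> intro h <;> omega

theorem C_bd_not (a b : Bool) : Cbd (!a) (!b) = Cbd a b := by revert a b; decide

theorem C_cut_not (k : ℕ) (A : ℕ → ℕ → Bool) : cut2 k (fun j a => !A j a) = cut2 k A := by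
  rw [C_cut2, C_cut2]
  unfold CT
  simp only [C_bd_not]

theorem C_cnt_not (k : ℕ) (A : ℕ → ℕ → Bool) (b : Bool) :
    cnt k (fun j a => !A j a) b = cnt k A (!b) := by
  rw [C_cnt_eq, C_cnt_eq]
  unfold CV
  have : ∀ x b : Bool, ((!x) == b) = (x == !b) := by decide
  simp only [this]

theorem C_const (k : ℕ) (A : ℕ → ℕ → Bool) (b : Bool) (p : ℕ) (h : CC k A p = true) :
    CN k (fun j a => A j a == b) p = 15 * Cnt1 (A (2 * k + 1) p == b) := by
  unfold CC Ccc at h
  simp only [Bool.and_eq_true, beq_iff_eq] at h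
  obtain ⟨⟨⟨⟨⟨⟨⟨⟨⟨⟨⟨⟨⟨e1, e2⟩, e3⟩, e4⟩, e5⟩, e6⟩, e7⟩, e8⟩, e9⟩, e10⟩, e11⟩, e12⟩, e13⟩, e14⟩ := h
  unfold CN CnB
  simp only [e1, e2, e3, e4, e5, e6, e7, e8, e9, e10, e11, e12, e13, e14]
  ring

theorem C_zero (k : ℕ) (A : ℕ → ℕ → Bool) (b : Bool) (h : cnt k A b = 0) (j a : ℕ)
    (hj : j < 2 * k + 3) (ha : a < wd j) : A j a = !b := by
  unfold cnt at h
  rw [sum_eq_zero_iff] at h
  have h1 := h j (mem_range.mpr hj)
  rw [sum_eq_zero_iff] at h1
  have h2 := h1 a (mem_range.mpr ha)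
  cases hx : A j a <;> cases b <;> simp_all

def Cz (x y0 y1 y2 z0 z1 z2 z3 z4 z5 : Bool) : ℕ :=
  2 * (Cbd y0 x + Cbd y1 x + Cbd y2 x + Cbd z0 y0 + Cbd z1 y0 + Cbd z2 y1 + Cbd z3 y1 +
    Cbd z4 y2 + Cbd z5 y2 + Cbd z0 z5 + Cbd z1 z2 + Cbd z3 z4 + Cbd z0 z3 + Cbd z1 z4 + Cbd z2 z5)

def Cy (x y0 y1 y2 z0 z1 z2 z3 z4 z5 : Bool) : ℕ :=
  Cnt1 x + (Cnt1 y0 + Cnt1 y1 + Cnt1 y2) + (Cnt1 z0 + Cnt1 z1 + Cnt1 z2 + Cnt1 z3 + Cnt1 z4 +
    Cnt1 z5)

theorem C_z0 (A : ℕ → ℕ → Bool) : cut2 0 A = Cz (A 0 0) (A 1 0) (A 1 1) (A 1 2) (A 2 0) (A 2 1)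
    (A 2 2) (A 2 3) (A 2 4) (A 2 5) := by
  rw [C_cut2]
  have e0 : (2 * 0 + 2) = 2 := rfl
  have w1 : wd 1 = 3 := rfl
  have w2 : wd 2 = 6 := rfl
  have w0 : W 0 = 6 := rfl
  have p0 : ∀ a, par 0 a = 0 := by intro a; simp [par]
  have p10 : par 1 0 = 0 := rfl
  have p11 : par 1 1 = 0 := rfl
  have p12 : par 1 2 = 1 := rfl
  have p13 : par 1 3 = 1 := rfl
  have p14 : par 1 4 = 2 := rfl
  have p15 : par 1 5 = 2 := rfl
  have n0 : nb 0 0 false = 5 := rfl
  have n1 : nb 0 1 false = 2 := rfl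
  have n2 : nb 0 2 false = 1 := rfl
  have n3 : nb 0 3 false = 4 := rfl
  have n4 : nb 0 4 false = 3 := rfl
  have n5 : nb 0 5 false = 0 := rfl
  have m0 : nb 0 0 true = 3 := rfl
  have m1 : nb 0 1 true = 4 := rfl
  have m2 : nb 0 2 true = 5 := rfl
  have m3 : nb 0 3 true = 0 := rfl
  have m4 : nb 0 4 true = 1 := rfl
  have m5 : nb 0 5 true = 2 := rfl
  rw [e0, w0]
  simp only [sum_range_succ, sum_range_zero, Fintype.sum_bool, CT, zero_add, w1, w2, p0, p10, p11,
    p12, p13, p14, p15, n0, n1, n2, n3, n4, n5, m0, m1, m2, m3, m4, m5, Nat.reduceAdd]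
  unfold Cz
  rw [C_bd_comm (A 2 5) (A 2 0), C_bd_comm (A 2 2) (A 2 1), C_bd_comm (A 2 4) (A 2 3),
    C_bd_comm (A 2 3) (A 2 0), C_bd_comm (A 2 4) (A 2 1), C_bd_comm (A 2 5) (A 2 2)]
  ring

theorem C_y0 (A : ℕ → ℕ → Bool) (b : Bool) : cnt 0 A b = Cy (A 0 0 == b) (A 1 0 == b) (A 1 1 == b)
    (A 1 2 == b) (A 2 0 == b) (A 2 1 == b)
    (A 2 2 == b) (A 2 3 == b) (A 2 4 == b) (A 2 5 == b) := by
  rw [C_cnt_eq]
  have e0 : (2 * 0 + 3) = 3 := rfl
  have w00 : wd 0 = 1 := rfl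
  have w1 : wd 1 = 3 := rfl
  have w2 : wd 2 = 6 := rfl
  rw [e0]
  simp only [sum_range_succ, sum_range_zero, CV, zero_add, w1, w2, w00]
  unfold Cy
  ring

theorem C_base0 : ∀ x y0 y1 y2 z0 z1 z2 z3 z4 z5 : Bool,
    (1 ≤ Cy (x == true) (y0 == true) (y1 == true) (y2 == true) (z0 == true) (z1 == true)
        (z2 == true) (z3 == true) (z4 == true) (z5 == true) →
      1 ≤ Cy (x == false) (y0 == false) (y1 == false) (y2 == false) (z0 == false) (z1 == false)
        (z2 == false) (z3 == false) (z4 == false) (z5 == false) →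
      6 ≤ Cz x y0 y1 y2 z0 z1 z2 z3 z4 z5) ∧
    (2 ≤ Cy (x == true) (y0 == true) (y1 == true) (y2 == true) (z0 == true) (z1 == true)
        (z2 == true) (z3 == true) (z4 == true) (z5 == true) →
      2 ≤ Cy (x == false) (y0 == false) (y1 == false) (y2 == false) (z0 == false) (z1 == false)
        (z2 == false) (z3 == false) (z4 == false) (z5 == false) →
      8 ≤ Cz x y0 y1 y2 z0 z1 z2 z3 z4 z5) := by
  decide +kernel

theorem C_main (hI : StmI) (hG : StmG) : ∀ k A,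
    (1 ≤ cnt k A true → 1 ≤ cnt k A false → 6 ≤ cut2 k A) ∧
    (2 ≤ cnt k A true → 2 ≤ cnt k A false → 8 ≤ cut2 k A) := by
  intro k
  induction k with
  | zero =>
    intro A
    rw [C_y0, C_y0, C_z0]
    exact C_base0 _ _ _ _ _ _ _ _ _ _
  | succ k ih =>
    intro A
    have hf : ∀ p, ∃ f2 f1 f3 : Bool, CcB f2 f1 f3 (A (2 * k + 1) p)
        (A (2 * k + 4) (8 * p)) (A (2 * k + 4) (8 * p + 2)) (A (2 * k + 4) (8 * p + 5))
        (A (2 * k + 4) (8 * p + 7)) + cond (CC k A p) 0 1 ≤ CD k A p ∧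
        (CC k A p = true → f2 = A (2 * k + 1) p ∧ f1 = A (2 * k + 1) p ∧
          f3 = A (2 * k + 1) p) := fun p => CF1 _ _ _ _ _ _ _ _ _ _ _ _ _ _ _
    choose f2 f1 f3 hle hcc using hf
    have hsm := C_small k (hI k) A f2 f1 f3
    have hbg := C_big k A
    have hsum : ∑ p ∈ range (CP k), CcB (f2 p) (f1 p) (f3 p) (A (2 * k + 1) p)
        (A (2 * k + 4) (8 * p)) (A (2 * k + 4) (8 * p + 2)) (A (2 * k + 4) (8 * p + 5))
        (A (2 * k + 4) (8 * p + 7)) + ∑ p ∈ range (CP k), cond (CC k A p) 0 1 ≤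
        ∑ p ∈ range (CP k), CD k A p := by
      rw [← sum_add_distrib]
      exact sum_le_sum (fun p _ => hle p)
    have hcut : cut2 k (CA k A f2 f1 f3) + 2 * ∑ p ∈ range (CP k), cond (CC k A p) 0 1 ≤
        cut2 (k + 1) A := by omega
    obtain ⟨ih1, ih2⟩ := ih (CA k A f2 f1 f3)
    by_cases hall : ∀ p, p < CP k → CC k A p = true
    · have key : ∀ b, (1 ≤ cnt (k + 1) A b → 1 ≤ cnt k (CA k A f2 f1 f3) b) ∧
          (2 ≤ cnt (k + 1) A b → 2 ≤ cnt k (CA k A f2 f1 f3) b) := by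
        intro b
        rw [C_cnt_big, C_cnt_small]
        have q1 : ∑ p ∈ range (CP k), CN k (fun j a => A j a == b) p =
            15 * ∑ p ∈ range (CP k), Cnt1 (A (2 * k + 1) p == b) := by
          rw [mul_sum]
          apply sum_congr rfl
          intro p hp
          exact C_const k A b p (hall p (mem_range.mp hp))
        have q2 : ∑ p ∈ range (CP k), (Cnt1 (f2 p == b) + Cnt1 (f1 p == b) + Cnt1 (f3 p == b)) =
            3 * ∑ p ∈ range (CP k), Cnt1 (A (2 * k + 1) p == b) := by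
          rw [mul_sum]
          apply sum_congr rfl
          intro p hp
          obtain ⟨r1, r2, r3⟩ := hcc p (hall p (mem_range.mp hp))
          rw [r1, r2, r3]
          ring
        rw [q1, q2]
        constructor <;> intro h <;> omega
      constructor
      · intro h1 h2
        have := ih1 ((key true).1 h1) ((key false).1 h2)
        omega
      · intro h1 h2
        have := ih2 ((key true).2 h1) ((key false).2 h2)
        omega
    · push Not at hall
      obtain ⟨p0, hp0, hcc0⟩ := hall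
      have hpos : 1 ≤ ∑ p ∈ range (CP k), cond (CC k A p) 0 1 := by
        refine le_trans ?_ (C_one_le (CP k) _ p0 hp0)
        simp only [Bool.not_eq_true] at hcc0
        rw [hcc0]
        exact le_rfl
      by_cases ht : cnt k (CA k A f2 f1 f3) true = 0
      · -- everything false
        have hz := C_zero k _ true ht
        have k1 := C_key k (hI k) (hG k) A (by
          intro j a hj ha
          have := hz j a (by omega) ha
          rw [C_CA_lo _ _ _ _ _ _ _ hj] at this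
          simpa using this) (by
          intro p hp
          have a1 := hz (2 * k + 1) p (by omega) (by rw [C_w1]; exact hp)
          have a2 := hz (2 * k + 2) (2 * p) (by omega) (by rw [C_w2]; omega)
          have a3 := hz (2 * k + 2) (2 * p + 1) (by omega) (by rw [C_w2]; omega)
          rw [C_CA_1] at a1
          rw [C_CA_2] at a2
          rw [C_CA_3] at a3
          have := hle p
          rw [a1, a2, a3] at this
          simp only [Bool.not_true] at this
          omega)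
        exact ⟨fun h1 _ => k1.1 h1, fun h1 _ => k1.2 h1⟩
      · by_cases hfz : cnt k (CA k A f2 f1 f3) false = 0
        · have hz := C_zero k _ false hfz
          have k1 := C_key k (hI k) (hG k) (fun j a => !A j a) (by
            intro j a hj ha
            have := hz j a (by omega) ha
            rw [C_CA_lo _ _ _ _ _ _ _ hj] at this
            simp [this]) (by
            intro p hp
            have a1 := hz (2 * k + 1) p (by omega) (by rw [C_w1]; exact hp)
            have a2 := hz (2 * k + 2) (2 * p) (by omega) (by rw [C_w2]; omega)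
            have a3 := hz (2 * k + 2) (2 * p + 1) (by omega) (by rw [C_w2]; omega)
            rw [C_CA_1] at a1
            rw [C_CA_2] at a2
            rw [C_CA_3] at a3
            have := hle p
            rw [a1, a2, a3] at this
            simp only [Bool.not_false] at this
            have e1 : CD k (fun j a => !A j a) p = CD k A p := by
              unfold CD CdB
              simp only [C_bd_not]
            rw [e1]
            have e2 : ∀ u l1 l3 l6 l8, CcB false false false (!u) (!l1) (!l3) (!l6) (!l8) =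
              CcB true true true u l1 l3 l6 l8 := by decide
            rw [e2]
            omega)
          rw [C_cut_not, C_cnt_not] at k1
          exact ⟨fun _ h1 => k1.1 h1, fun _ h1 => k1.2 h1⟩
        · have := ih1 (by omega) (by omega)
          constructor <;> intro _ _ <;> omega

theorem stmC (hI : StmI) (hG : StmG) : StmC := fun k A h1 h2 => (C_main hI hG k A).2 h1 h2

end Pool.Agent.H802.RS
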