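import Pool.Agent.H802.RS.Defs

namespace Pool.Agent.H802.RS

def Cbd (a b : Bool) : ℕ := cond a (cond b 0 1) (cond b 1 0)

def CdB (u w1 w2 c1 c2 c3 c4 l1 l2 l3 l4 l5 l6 l7 l8 : Bool) : ℕ :=
  Cbd w1 u + Cbd w2 u + Cbd c1 w1 + Cbd c2 w1 + Cbd c3 w2 + Cbd c4 w2 + Cbd l1 c1 + Cbd l2 c1 +
  Cbd l3 c2 + Cbd l4 c2 + Cbd l5 c3 + Cbd l6 c3 + Cbd l7 c4 + Cbd l8 c4 +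
  Cbd l1 l4 + Cbd l2 l3 + Cbd l5 l8 + Cbd l6 l7 + Cbd l2 l5 + Cbd l4 l7

def CcB (f2 f1 f3 u l1 l3 l6 l8 : Bool) : ℕ :=
  Cbd f1 f2 + Cbd f3 f2 + Cbd f2 u + Cbd f1 l1 + Cbd f1 l3 + Cbd f3 l6 + Cbd f3 l8

def Ccc (u w1 w2 c1 c2 c3 c4 l1 l2 l3 l4 l5 l6 l7 l8 : Bool) : Bool :=
  (w1 == u) && (w2 == u) && (c1 == u) && (c2 == u) && (c3 == u) && (c4 == u) && (l1 == u) &&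
  (l2 == u) && (l3 == u) && (l4 == u) && (l5 == u) && (l6 == u) && (l7 == u) && (l8 == u)

theorem CF1 : ∀ u w1 w2 c1 c2 c3 c4 l1 l2 l3 l4 l5 l6 l7 l8 : Bool, ∃ f2 f1 f3 : Bool,
    CcB f2 f1 f3 u l1 l3 l6 l8 + cond (Ccc u w1 w2 c1 c2 c3 c4 l1 l2 l3 l4 l5 l6 l7 l8) 0 1 ≤
      CdB u w1 w2 c1 c2 c3 c4 l1 l2 l3 l4 l5 l6 l7 l8 ∧
    (Ccc u w1 w2 c1 c2 c3 c4 l1 l2 l3 l4 l5 l6 l7 l8 = true → f2 = u ∧ f1 = u ∧ f3 = u) := by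
  decide +kernel

def Cnt1 (b : Bool) : ℕ := cond b 1 0

def CnB (u w1 w2 c1 c2 c3 c4 l1 l2 l3 l4 l5 l6 l7 l8 : Bool) : ℕ :=
  Cnt1 u + (Cnt1 w1 + Cnt1 w2) + (Cnt1 c1 + Cnt1 c2 + Cnt1 c3 + Cnt1 c4) +
  (Cnt1 l1 + Cnt1 l2 + Cnt1 l3 + Cnt1 l4 + Cnt1 l5 + Cnt1 l6 + Cnt1 l7 + Cnt1 l8)

theorem CF23 : ∀ u w1 w2 c1 c2 c3 c4 l1 l2 l3 l4 l5 l6 l7 l8 : Bool,
    (1 ≤ CnB u w1 w2 c1 c2 c3 c4 l1 l2 l3 l4 l5 l6 l7 l8 →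
      3 ≤ CdB u w1 w2 c1 c2 c3 c4 l1 l2 l3 l4 l5 l6 l7 l8 +
        (Cnt1 u + Cnt1 l1 + Cnt1 l3 + Cnt1 l6 + Cnt1 l8)) ∧
    (2 ≤ CnB u w1 w2 c1 c2 c3 c4 l1 l2 l3 l4 l5 l6 l7 l8 →
      4 ≤ CdB u w1 w2 c1 c2 c3 c4 l1 l2 l3 l4 l5 l6 l7 l8 +
        (Cnt1 u + Cnt1 l1 + Cnt1 l3 + Cnt1 l6 + Cnt1 l8)) ∧
    (1 ≤ CnB u w1 w2 c1 c2 c3 c4 l1 l2 l3 l4 l5 l6 l7 l8 →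
      CcB false false false u l1 l3 l6 l8 ≤ CdB u w1 w2 c1 c2 c3 c4 l1 l2 l3 l4 l5 l6 l7 l8 →
      2 ≤ CdB u w1 w2 c1 c2 c3 c4 l1 l2 l3 l4 l5 l6 l7 l8) := by
  decide +kernel

end Pool.Agent.H802.RS
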