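import Mathlib

/-! Rotation snarks (MP_3688cb_co). Definitions and the exact statements of the pieces.

`sg k` is an involution without fixed points on the half-edges `(a, s)`, `a < 6 * 4 ^ k`, of the
leaves of the tree `T_(2k+2)`; the snark `Gr k` is this tree plus the edges given by `sg k`.
`Gr 0` is the Petersen graph; `Gr (k+1)` arises from `Gr k` by replacing every pair of sibling
leaves together with their parent by a piece with fifteen vertices. -/

namespace Pool.Agent.H802.RS

/-- the number of vertices at level `j` (distance `j` from the centre) -/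
def wd : ℕ → ℕ
  | 0 => 1
  | j + 1 => 3 * 2 ^ j

/-- the index at level `j` of the parent of the vertex with index `a` at level `j + 1` -/
def par (j a : ℕ) : ℕ := if j = 0 then 0 else a / 2

/-- the external half-edges of the new leaves -/
def ext (a : ℕ) (s : Bool) : ℕ :=
  if a % 2 = 0 then (if s then 4 * a + 2 else 4 * a) else (if s then 4 * a + 3 else 4 * a + 1)

/-- the involution on the half-edges of the leaves of `T_(2k+2)` -/
def sg : ℕ → ℕ → Bool → ℕ × Bool
  | 0, a, false => (if a % 2 = 0 then (a + 5) % 6 else (a + 1) % 6, false)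
  | 0, a, true => ((a + 3) % 6, true)
  | _ + 1, b, false => (4 * (b / 4) + (3 - b % 4), false)
  | k + 1, b, true =>
      if b / 4 % 2 = 0 then
        (if b % 2 = 1 then (b + 3, true)
         else (ext (sg k (b / 4) (decide (b % 4 = 2))).1 (sg k (b / 4) (decide (b % 4 = 2))).2,
          true))
      else
        (if b % 2 = 0 then (b - 3, true)
         else (ext (sg k (b / 4) (decide (b % 4 = 3))).1 (sg k (b / 4) (decide (b % 4 = 3))).2,
          true))

/-- number of leaves -/
def W (k : ℕ) : ℕ := 6 * 4 ^ k

theorem W_eq (k : ℕ) : W k = wd (2 * k + 2) := by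
  simp only [W, wd]
  rw [pow_succ, pow_mul]
  norm_num
  ring

/-- the neighbours of a leaf outside the tree -/
def nb (k a : ℕ) (s : Bool) : ℕ := (sg k a s).1

/-! ### statements of the pieces -/

/-- Nowhere-zero flows over the group of order four (three-edge-colourings): `t j a` is the value
of the tree edge from the vertex `(j, a)` to its parent, `c a s` the value at the half-edge
`(a, s)`. -/
structure NZ (k : ℕ) (t : ℕ → ℕ → ZMod 2 × ZMod 2) (c : ℕ → Bool → ZMod 2 × ZMod 2) : Prop where
  tne : ∀ j a, 1 ≤ j → j ≤ 2 * k + 2 → a < wd j → t j a ≠ 0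
  cne : ∀ a s, a < W k → c a s ≠ 0
  sym : ∀ a s, a < W k → c (sg k a s).1 (sg k a s).2 = c a s
  cen : t 1 0 + t 1 1 + t 1 2 = 0
  nod : ∀ j a, 1 ≤ j → j < 2 * k + 2 → a < wd j → t j a = t (j + 1) (2 * a) + t (j + 1) (2 * a + 1)
  lf : ∀ a, a < W k → t (2 * k + 2) a = c a false + c a true

/-- Piece N -/
def StmN : Prop := ∀ k t c, ¬ NZ k t c

/-- twice the number of edges at which `A` changes -/
def cut2 (k : ℕ) (A : ℕ → ℕ → Bool) : ℕ :=
  2 * ∑ j ∈ Finset.range (2 * k + 2), ∑ a ∈ Finset.range (wd (j + 1)),
      (if A (j + 1) a = A j (par j a) then 0 else 1) +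
    ∑ a ∈ Finset.range (W k), ∑ s : Bool,
      (if A (2 * k + 2) a = A (2 * k + 2) (nb k a s) then 0 else 1)

/-- number of vertices of `T_(2k+2)` with `A = b` -/
def cnt (k : ℕ) (A : ℕ → ℕ → Bool) (b : Bool) : ℕ :=
  ∑ j ∈ Finset.range (2 * k + 3), ∑ a ∈ Finset.range (wd j), (if A j a = b then 1 else 0)

/-- Piece C: cuts with at most three edges are trivial -/
def StmC : Prop := ∀ k A, 2 ≤ cnt k A true → 2 ≤ cnt k A false → 8 ≤ cut2 k A

/-- Piece G: local conditions for girth at least five (besides triangles through the tree) -/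
structure Girthy (k : ℕ) : Prop where
  /-- the two outer neighbours are different -/
  dif : ∀ a, a < W k → nb k a false ≠ nb k a true
  /-- no sibling is an outer neighbour (nor the vertex itself) -/
  sib : ∀ a s, a < W k → nb k a s / 2 ≠ a / 2
  /-- the two outer neighbours are not siblings -/
  sib2 : ∀ a, a < W k → nb k a false / 2 ≠ nb k a true / 2
  /-- no outer triangle -/
  tri : ∀ a s s', a < W k → nb k (nb k a s) s' ≠ nb k a (!s)
  /-- no outer quadrilateral -/
  quad : ∀ a s s', a < W k → nb k (nb k a false) s ≠ a → nb k (nb k a true) s' ≠ a →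
    nb k (nb k a false) s ≠ nb k (nb k a true) s'

def StmG : Prop := ∀ k, Girthy k

/-- Piece I: range, involution and rotation -/
structure Basic (k : ℕ) : Prop where
  lt : ∀ a s, a < W k → (sg k a s).1 < W k
  inv : ∀ a s, a < W k → sg k (sg k a s).1 (sg k a s).2 = (a, s)
  rot : ∀ a s, a < W k → sg k ((a + 2 * 4 ^ k) % W k) s = (((sg k a s).1 + 2 * 4 ^ k) % W k,
    (sg k a s).2)

def StmI : Prop := ∀ k, Basic k

end Pool.Agent.H802.RS
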