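import Pool.Agent.H802.RS.Defs

/-! Rotation snarks: the graphs, the literal definitions, the statement of the tree piece. -/

namespace Pool.Agent.H802.RS

/-- the vertices of the tree `T_i` and of the graphs containing it: pairs (level, index) -/
def TV (i : ℕ) : Type := {p : ℕ × ℕ // p.1 ≤ i ∧ p.2 < wd p.1}

instance (i : ℕ) : DecidableEq (TV i) := inferInstanceAs (DecidableEq {p : ℕ × ℕ // _})

instance (i : ℕ) : Finite (TV i) := by
  have h : Set.Finite {p : ℕ × ℕ | p.1 ≤ i ∧ p.2 < wd p.1} := by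
    apply Set.Finite.subset (s := Set.Iic i ×ˢ Set.Iic (3 * 2 ^ i)) 
      (Set.Finite.prod (Set.finite_Iic _) (Set.finite_Iic _))
    rintro ⟨j, a⟩ ⟨h1, h2⟩
    refine ⟨h1, ?_⟩
    simp only at h1 h2
    show a ≤ 3 * 2 ^ i
    cases j with
    | zero =>
      simp only [wd] at h2
      omega
    | succ j =>
      simp only [wd] at h2
      have : 2 ^ j ≤ 2 ^ i := Nat.pow_le_pow_right (by norm_num) (by omega)
      omega
  exact h.to_subtype

/-- the centre -/
def ctr (i : ℕ) : TV i := ⟨(0, 0), by simp [wd]⟩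

/-- the tree `T_i` -/
def tr (i : ℕ) : SimpleGraph (TV i) :=
  SimpleGraph.fromRel fun p q => q.1.1 = p.1.1 + 1 ∧ p.1.2 = par p.1.1 q.1.2

/-- the graph `G_k`: the tree `T_(2k+2)` and the edges between leaves given by `sg k` -/
def Gr (k : ℕ) : SimpleGraph (TV (2 * k + 2)) :=
  SimpleGraph.fromRel fun p q => (q.1.1 = p.1.1 + 1 ∧ p.1.2 = par p.1.1 q.1.2) ∨
    (p.1.1 = 2 * k + 2 ∧ q.1.1 = 2 * k + 2 ∧ ∃ s, nb k p.1.2 s = q.1.2)

/-- Piece T: the tree -/
def StmT : Prop := ∀ i, 1 ≤ i →
  (tr i).IsTree ∧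
  (∀ v : TV i, ((tr i).neighborSet v).ncard = if v.1.1 = i then 1 else 3) ∧
  (∀ v : TV i, (tr i).dist (ctr i) v = v.1.1) ∧
  ∀ v a : TV i, 1 ≤ v.1.1 → a.1.1 = i →
    ((tr i).dist (ctr i) a = (tr i).dist (ctr i) v + (tr i).dist v a ↔
      a.1.2 / 2 ^ (i - v.1.1) = v.1.2)

variable {V : Type}

/-- `T` is a tree all of whose degrees are one or three, and `x` is a vertex of degree three at
distance exactly `i` from every leaf: `T` is (isomorphic to) the tree `T_i` with centre `x`. -/
structure IsTi (T : SimpleGraph V) (x : V) (i : ℕ) : Prop where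
  tree : T.IsTree
  deg : ∀ v, (T.neighborSet v).ncard = 1 ∨ (T.neighborSet v).ncard = 3
  cen : (T.neighborSet x).ncard = 3
  dist : ∀ v, (T.neighborSet v).ncard = 1 → T.dist x v = i

/-- A snark: a connected cubic graph, cyclically 4-edge-connected (if a set `A` of vertices and its
complement both contain a cycle, then at least four edges leave `A`), of girth at least five,
without proper 3-edge-colouring. -/
structure IsSnark (G : SimpleGraph V) : Prop where
  cubic : ∀ v, (G.neighborSet v).ncard = 3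
  conn : G.Connected
  cyc : ∀ A : Set V, ¬ (G.induce A).IsAcyclic → ¬ (G.induce Aᶜ).IsAcyclic →
    4 ≤ {e | e ∈ G.edgeSet ∧ ∃ u ∈ A, ∃ v ∉ A, e = s(u, v)}.ncard
  girth : 5 ≤ G.egirth
  col : ¬ ∃ c : Sym2 V → Fin 3, ∀ u v w, G.Adj u v → G.Adj u w → v ≠ w → c s(u, v) ≠ c s(u, w)

/-- A rotation `T_i`-snark: a snark with a spanning tree `T`, a copy of `T_i` with centre `x`,
whose leaves are labelled by `0, ..., 3 * 2 ^ (i - 1) - 1` such that
* for every vertex `v ≠ x` the labels of the leaves `a` beyond `v` (`v` is on the path of `T` from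
  `x` to `a`) are an interval (this says that `T` has a crossing-free drawing with the leaves on a
  circle, in the order of their labels, and with the last leaf, the leaf `0` and the centre on a
  common face);
* the edges between leaves are invariant under the rotation of the labels by a third. -/
structure IsRotationSnark (G : SimpleGraph V) (i : ℕ) : Prop where
  two_le : 2 ≤ i
  snark : IsSnark G
  rot : ∃ (T : SimpleGraph V) (x : V)
    (lab : {v // (T.neighborSet v).ncard = 1} ≃ Fin (3 * 2 ^ (i - 1))),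
    T ≤ G ∧ IsTi T x i ∧
    (∀ v ≠ x, ∀ a b c : {v // (T.neighborSet v).ncard = 1}, lab a < lab b → lab b < lab c →
      T.dist x a = T.dist x v + T.dist v a → T.dist x c = T.dist x v + T.dist v c →
      T.dist x b = T.dist x v + T.dist v b) ∧
    ∀ a b a' b' : {v // (T.neighborSet v).ncard = 1}, G.Adj a b →
      (lab a' : ℕ) = ((lab a : ℕ) + 2 ^ (i - 1)) % (3 * 2 ^ (i - 1)) →
      (lab b' : ℕ) = ((lab b : ℕ) + 2 ^ (i - 1)) % (3 * 2 ^ (i - 1)) → G.Adj a' b'

end Pool.Agent.H802.RS
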