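import Pool.Agent.H802.RS.Defs

/-! Piece N: the graphs are not three-edge-colourable. -/

namespace Pool.Agent.H802.RS

/-- the group of order four -/
abbrev K4 := ZMod 2 × ZMod 2

theorem sg_false (k b : ℕ) : sg (k + 1) b false = (4 * (b / 4) + (3 - b % 4), false) := rfl

theorem sg_ext (k a : ℕ) (s : Bool) :
    sg (k + 1) (ext a s) true = (ext (sg k a s).1 (sg k a s).2, true) := by
  rcases Nat.mod_two_eq_zero_or_one a with h | h
  · have h1 : ext a s = 4 * a + (if s then 2 else 0) := by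
      unfold ext; rw [if_pos h]; cases s <;> rfl
    rw [h1]
    have h2 : (4 * a + (if s then 2 else 0)) / 4 = a := by cases s <;> simp <;> omega
    have h3 : (4 * a + (if s then 2 else 0)) % 2 = 0 := by cases s <;> simp <;> omega
    have h4 : decide ((4 * a + (if s then 2 else 0)) % 4 = 2) = s := by
      cases s <;> simp
    simp only [sg]
    rw [h2, if_pos h, if_neg (by rw [h3]; decide), h4]
  · have h1 : ext a s = 4 * a + (if s then 3 else 1) := by
      unfold ext; rw [if_neg (by omega)]; cases s <;> rfl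
    rw [h1]
    have h2 : (4 * a + (if s then 3 else 1)) / 4 = a := by cases s <;> simp <;> omega
    have h3 : (4 * a + (if s then 3 else 1)) % 2 = 1 := by cases s <;> simp <;> omega
    have h4 : decide ((4 * a + (if s then 3 else 1)) % 4 = 3) = s := by
      cases s <;> simp
    simp only [sg]
    rw [h2, if_neg (by omega), if_neg (by rw [h3]; decide), h4]

theorem sg_cross (k p : ℕ) : sg (k + 1) (8 * p + 1) true = (8 * p + 4, true) ∧
    sg (k + 1) (8 * p + 3) true = (8 * p + 6, true) := by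
  constructor
  · simp only [sg]
    rw [if_pos (by omega), if_pos (by omega)]
  · simp only [sg]
    rw [if_pos (by omega), if_pos (by omega)]

/-- the values at a block are admissible -/
def okB (e f d0 d1 d2 d3 : K4) : Bool :=
  e != 0 && f != 0 && d0 != 0 && e + d0 != 0 && d3 != 0 && e + d3 != 0 && d1 != 0 &&
  f + d1 != 0 && d2 != 0 && f + d2 != 0 && (e + d0) + (f + d1) != 0 &&
    (f + d2) + (e + d3) != 0 && ((e + d0) + (f + d1)) + ((f + d2) + (e + d3)) != 0

/-- the values at the Petersen graph are admissible -/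
def okP (e1 e2 e3 e4 e5 e6 : K4) : Bool :=
  e1 != 0 && e4 != 0 && e1 + e4 != 0 && e3 != 0 &&
    e3 + e4 != 0 && e6 != 0 && e3 + e6 != 0 && e2 != 0 && e2 + e6 != 0 &&
    (e1 + e4) + (e2 + e6) != 0 && e5 != 0 && e2 + e5 != 0 && e1 + e5 != 0 &&
    (e2 + e5) + (e3 + e4) != 0 && (e3 + e6) + (e1 + e5) != 0

theorem blockB : ∀ e f d0 d1 d2 d3 : K4, okB e f d0 d1 d2 d3 = true →
    (d0 = d2 ∧ d1 ≠ d3) ∨ (d0 ≠ d2 ∧ d1 = d3) := by decide +kernel

theorem petB : ∀ e1 e2 e3 e4 e5 e6 : K4, okP e1 e2 e3 e4 e5 e6 = false := by decide +kernel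

theorem block (e f d0 d1 d2 d3 : K4) (h : e ≠ 0 ∧ f ≠ 0 ∧ d0 ≠ 0 ∧ e + d0 ≠ 0 ∧ d3 ≠ 0 ∧
    e + d3 ≠ 0 ∧ d1 ≠ 0 ∧ f + d1 ≠ 0 ∧ d2 ≠ 0 ∧ f + d2 ≠ 0 ∧ (e + d0) + (f + d1) ≠ 0 ∧
    (f + d2) + (e + d3) ≠ 0 ∧ ((e + d0) + (f + d1)) + ((f + d2) + (e + d3)) ≠ 0) :
    (d0 = d2 ∧ d1 ≠ d3) ∨ (d0 ≠ d2 ∧ d1 = d3) := by
  apply blockB e f
  unfold okB
  simp only [Bool.and_eq_true, bne_iff_ne, and_assoc]
  exact h

theorem pet (e1 e2 e3 e4 e5 e6 : K4) : ¬ (e1 ≠ 0 ∧ e4 ≠ 0 ∧ e1 + e4 ≠ 0 ∧ e3 ≠ 0 ∧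
    e3 + e4 ≠ 0 ∧ e6 ≠ 0 ∧ e3 + e6 ≠ 0 ∧ e2 ≠ 0 ∧ e2 + e6 ≠ 0 ∧
    (e1 + e4) + (e2 + e6) ≠ 0 ∧ e5 ≠ 0 ∧ e2 + e5 ≠ 0 ∧ e1 + e5 ≠ 0 ∧
    (e2 + e5) + (e3 + e4) ≠ 0 ∧ (e3 + e6) + (e1 + e5) ≠ 0) := by
  intro h
  have h2 : okP e1 e2 e3 e4 e5 e6 = true := by
    unfold okP
    simp only [Bool.and_eq_true, bne_iff_ne, and_assoc]
    exact h
  rw [petB] at h2
  exact absurd h2 (by decide)

theorem fin1 : ∀ d0 d1 d2 d3 f1 f3 : K4, (d0 = d2 ∧ d1 ≠ d3) →
    ((d1 = d3 ∧ f1 ≠ f3) ∨ (d1 ≠ d3 ∧ f1 = f3)) →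
    (d0 + d1 + (d2 + d3)) + (d1 + f1 + (d3 + f3)) = 0 := by decide +kernel

theorem k4_add_self : ∀ x y : K4, x + y = 0 → x = y := by decide +kernel

theorem sum4 : ∀ e f d0 d1 d2 d3 : K4,
    ((e + d0) + (f + d1)) + ((f + d2) + (e + d3)) = d0 + d1 + (d2 + d3) := by decide +kernel

theorem sum4' : ∀ d0 d1 d2 : K4, d0 + d1 + (d2 + d1) = d0 + d2 := by decide +kernel

theorem sum4'' : ∀ d0 d1 d2 : K4, d0 + d1 + (d0 + d2) = d1 + d2 := by decide +kernel

theorem W_succ (k : ℕ) : W (k + 1) = 4 * W k := by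
  simp only [W]; rw [pow_succ]; ring

theorem wd_succ (j : ℕ) (h : 1 ≤ j) : wd (j + 1) = 2 * wd j := by
  cases j with
  | zero => omega
  | succ j => simp only [wd]; rw [pow_succ]; ring

theorem nz_zero (t : ℕ → ℕ → K4) (c : ℕ → Bool → K4) : ¬ NZ 0 t c := by
  intro h
  have hW : W 0 = 6 := rfl
  have hc : ∀ a s, a < 6 → c a s ≠ 0 := fun a s ha => h.cne a s ha
  have hs : ∀ a s, a < 6 → c (sg 0 a s).1 (sg 0 a s).2 = c a s := fun a s ha => h.sym a s ha
  have hl : ∀ a, a < 6 → t 2 a = c a false + c a true := fun a ha => h.lf a ha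
  have ht : ∀ a, a < 6 → t 2 a ≠ 0 := fun a ha => h.tne 2 a (by norm_num) (by norm_num) ha
  have ht1 : ∀ a, a < 3 → t 1 a ≠ 0 := fun a ha => h.tne 1 a (by norm_num) (by norm_num) ha
  have hn : ∀ a, a < 3 → t 1 a = t 2 (2 * a) + t 2 (2 * a + 1) :=
    fun a ha => h.nod 1 a (by norm_num) (by norm_num) ha
  have s5 : c 5 false = c 0 false := hs 0 false (by norm_num)
  have s1 : c 1 false = c 2 false := hs 2 false (by norm_num)
  have s3 : c 3 false = c 4 false := hs 4 false (by norm_num)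
  have r3 : c 3 true = c 0 true := hs 0 true (by norm_num)
  have r5 : c 5 true = c 2 true := hs 2 true (by norm_num)
  have r1 : c 1 true = c 4 true := hs 4 true (by norm_num)
  have l0 : t 2 0 = c 0 false + c 0 true := hl 0 (by norm_num)
  have l1 : t 2 1 = c 2 false + c 4 true := by rw [hl 1 (by norm_num), s1, r1]
  have l2 : t 2 2 = c 2 false + c 2 true := hl 2 (by norm_num)
  have l3 : t 2 3 = c 4 false + c 0 true := by rw [hl 3 (by norm_num), s3, r3]
  have l4 : t 2 4 = c 4 false + c 4 true := hl 4 (by norm_num)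
  have l5 : t 2 5 = c 0 false + c 2 true := by rw [hl 5 (by norm_num), s5, r5]
  have n0 : t 1 0 = t 2 0 + t 2 1 := hn 0 (by norm_num)
  have n1 : t 1 1 = t 2 2 + t 2 3 := hn 1 (by norm_num)
  have n2 : t 1 2 = t 2 4 + t 2 5 := hn 2 (by norm_num)
  refine pet (c 0 false) (c 2 false) (c 4 false) (c 0 true) (c 2 true) (c 4 true)
    ⟨hc _ _ (by norm_num), hc _ _ (by norm_num), ?_, hc _ _ (by norm_num), ?_,
      hc _ _ (by norm_num), ?_, hc _ _ (by norm_num), ?_, ?_, hc _ _ (by norm_num), ?_, ?_, ?_,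
      ?_⟩
  · rw [← l0]; exact ht 0 (by norm_num)
  · rw [← l3]; exact ht 3 (by norm_num)
  · rw [← l4]; exact ht 4 (by norm_num)
  · rw [← l1]; exact ht 1 (by norm_num)
  · rw [← l0, ← l1, ← n0]; exact ht1 0 (by norm_num)
  · rw [← l2]; exact ht 2 (by norm_num)
  · rw [← l5]; exact ht 5 (by norm_num)
  · rw [← l2, ← l3, ← n1]; exact ht1 1 (by norm_num)
  · rw [← l4, ← l5, ← n2]; exact ht1 2 (by norm_num)

theorem nz_succ (k : ℕ) (t : ℕ → ℕ → K4) (c : ℕ → Bool → K4) (h : NZ (k + 1) t c) :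
    NZ k t (fun a s => c (ext a s) true) := by
  have hWs := W_succ k
  have hWk := W_eq k
  have w3 : wd (2 * k + 3) = 2 * W k := by rw [hWk]; exact wd_succ _ (by omega)
  have w4 : wd (2 * k + 4) = 4 * W k := by rw [wd_succ (2 * k + 3) (by omega), w3]; ring
  have w1 : 2 * wd (2 * k + 1) = W k := by rw [hWk]; exact (wd_succ _ (by omega)).symm
  have hext : ∀ a s, a < W k → ext a s < W (k + 1) := by
    intro a s ha
    unfold ext
    split_ifs <;> omega
  -- one block
  have hb : ∀ a, a < W k → t (2 * k + 2) a = c (4 * a) true + c (4 * a + 1) true +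
      (c (4 * a + 2) true + c (4 * a + 3) true) ∧
      ((c (4 * a) true = c (4 * a + 2) true ∧ c (4 * a + 1) true ≠ c (4 * a + 3) true) ∨
       (c (4 * a) true ≠ c (4 * a + 2) true ∧ c (4 * a + 1) true = c (4 * a + 3) true)) := by
    intro a ha
    have l : ∀ j, j < 4 → t (2 * k + 4) (4 * a + j) = c (4 * a + j) false + c (4 * a + j) true :=
      fun j hj => h.lf (4 * a + j) (by omega)
    have tn4 : ∀ j, j < 4 → t (2 * k + 4) (4 * a + j) ≠ 0 :=
      fun j hj => h.tne (2 * k + 4) _ (by omega) (by omega) (by omega)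
    have cn : ∀ j, j < 4 → c (4 * a + j) true ≠ 0 := fun j hj => h.cne _ _ (by omega)
    have cf : ∀ j, j < 4 → c (4 * a + j) false ≠ 0 := fun j hj => h.cne _ _ (by omega)
    have s3 : c (4 * a + 3) false = c (4 * a + 0) false := by
      have := h.sym (4 * a + 0) false (by omega)
      rw [sg_false] at this
      simp only at this
      rw [← this]
      congr 1
      omega
    have s2 : c (4 * a + 2) false = c (4 * a + 1) false := by
      have := h.sym (4 * a + 1) false (by omega)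
      rw [sg_false] at this
      simp only at this
      rw [← this]
      congr 1
      omega
    have n0 : t (2 * k + 3) (2 * a) = t (2 * k + 4) (4 * a + 0) + t (2 * k + 4) (4 * a + 1) := by
      have := h.nod (2 * k + 3) (2 * a) (by omega) (by omega) (by omega)
      rw [this]
      congr 2 <;> omega
    have n1 : t (2 * k + 3) (2 * a + 1) =
        t (2 * k + 4) (4 * a + 2) + t (2 * k + 4) (4 * a + 3) := by
      have := h.nod (2 * k + 3) (2 * a + 1) (by omega) (by omega) (by omega)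
      rw [this]
      congr 2 <;> omega
    have n2 : t (2 * k + 2) a = t (2 * k + 3) (2 * a) + t (2 * k + 3) (2 * a + 1) :=
      h.nod (2 * k + 2) a (by omega) (by omega) (by omega)
    have l0 := l 0 (by norm_num)
    have l1 := l 1 (by norm_num)
    have l2 := l 2 (by norm_num)
    have l3 := l 3 (by norm_num)
    rw [s2] at l2
    rw [s3] at l3
    have m0 : t (2 * k + 3) (2 * a) ≠ 0 := h.tne _ _ (by omega) (by omega) (by omega)
    have m1 : t (2 * k + 3) (2 * a + 1) ≠ 0 := h.tne _ _ (by omega) (by omega) (by omega)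
    have m2 : t (2 * k + 2) a ≠ 0 := h.tne _ _ (by omega) (by omega) (by omega)
    have q0 := tn4 0 (by norm_num)
    have q1 := tn4 1 (by norm_num)
    have q2 := tn4 2 (by norm_num)
    have q3 := tn4 3 (by norm_num)
    have c0 := cn 0 (by norm_num)
    have c1 := cn 1 (by norm_num)
    have c2 := cn 2 (by norm_num)
    have c3 := cn 3 (by norm_num)
    have f0 := cf 0 (by norm_num)
    have f1 := cf 1 (by norm_num)
    rw [n2, n0, n1, l0, l1, l2, l3] at m2
    rw [n0, l0, l1] at m0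
    rw [n1, l2, l3] at m1
    rw [l0] at q0
    rw [l1] at q1
    rw [l2] at q2
    rw [l3] at q3
    refine ⟨?_, ?_⟩
    · rw [n2, n0, n1, l0, l1, l2, l3, sum4]
      rfl
    · exact block _ _ _ _ _ _ ⟨f0, f1, c0, q0, c3, q3, c1, q1, c2, q2, m0, m1, m2⟩
  -- the two blocks of a cherry
  have hp : ∀ p, p < wd (2 * k + 1) →
      t (2 * k + 2) (2 * p) = c (8 * p) true + c (8 * p + 2) true ∧
      t (2 * k + 2) (2 * p + 1) = c (8 * p + 5) true + c (8 * p + 7) true := by
    intro p hpw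
    obtain ⟨e1, e2⟩ := hb (2 * p) (by omega)
    obtain ⟨e3, e4⟩ := hb (2 * p + 1) (by omega)
    have a0 : 4 * (2 * p) = 8 * p := by ring
    have a4 : 4 * (2 * p + 1) = 8 * p + 4 := by ring
    rw [a0] at e1 e2
    rw [a4] at e3 e4
    have x1 : c (8 * p + 4) true = c (8 * p + 1) true := by
      have := h.sym (8 * p + 1) true (by omega)
      rw [(sg_cross k p).1] at this
      exact this
    have x3 : c (8 * p + 4 + 2) true = c (8 * p + 3) true := by
      have := h.sym (8 * p + 3) true (by omega)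
      rw [(sg_cross k p).2] at this
      exact this
    rw [x1, x3] at e3 e4
    have m1 : t (2 * k + 1) p ≠ 0 := h.tne _ _ (by omega) (by omega) hpw
    have n1 : t (2 * k + 1) p = t (2 * k + 2) (2 * p) + t (2 * k + 2) (2 * p + 1) :=
      h.nod _ _ (by omega) (by omega) hpw
    rcases e2 with e2 | e2
    · exfalso
      apply m1
      rw [n1, e1, e3]
      exact fin1 _ _ _ _ _ _ e2 e4
    · rcases e4 with e4 | e4
      · refine ⟨?_, ?_⟩
        · rw [e1, e2.2, sum4']
        · rw [e3, e4.1]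
          show c (8 * p + 3) true + c (8 * p + 5) true +
            (c (8 * p + 3) true + c (8 * p + 7) true) = _
          exact sum4'' _ _ _
      · exact absurd e2.2 e4.1
  refine ⟨?_, ?_, ?_, h.cen, ?_, ?_⟩
  · intro j a h1 h2 h3
    exact h.tne j a h1 (by omega) h3
  · intro a s ha
    exact h.cne _ _ (hext a s ha)
  · intro a s ha
    have := h.sym (ext a s) true (hext a s ha)
    rw [sg_ext] at this
    exact this
  · intro j a h1 h2 h3
    exact h.nod j a h1 (by omega) h3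
  · intro a ha
    have hpa : a / 2 < wd (2 * k + 1) := by omega
    obtain ⟨h1, h2⟩ := hp (a / 2) hpa
    rcases Nat.mod_two_eq_zero_or_one a with hm | hm
    · have ea : a = 2 * (a / 2) := by omega
      have e1 : ext a false = 8 * (a / 2) := by unfold ext; rw [if_pos hm]; simp; omega
      have e2 : ext a true = 8 * (a / 2) + 2 := by unfold ext; rw [if_pos hm]; simp; omega
      simp only [e1, e2]
      rw [← h1, ← ea]
    · have ea : a = 2 * (a / 2) + 1 := by omega
      have e1 : ext a false = 8 * (a / 2) + 5 := by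
        unfold ext; rw [if_neg (by omega)]; simp; omega
      have e2 : ext a true = 8 * (a / 2) + 7 := by
        unfold ext; rw [if_neg (by omega)]; simp; omega
      simp only [e1, e2]
      rw [← h2, ← ea]

theorem stmN : StmN := by
  intro k
  induction k with
  | zero => exact nz_zero
  | succ k ih => exact fun t c h => ih _ _ (nz_succ k t c h)

end Pool.Agent.H802.RS
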