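import Pool.Agent.H802.RS.Defs2
import Pool.Agent.H802.RS.N

/-! Adjacency in the graphs `Gr k`, girth, degrees, colourings. -/

namespace Pool.Agent.H802.RS

variable {k : ℕ}

/-- `q` is a child of `p` -/
def Up {i : ℕ} (p q : TV i) : Prop := q.1.1 = p.1.1 + 1 ∧ p.1.2 = par p.1.1 q.1.2

/-- `p` and `q` are leaves joined outside the tree -/
def Lf (k : ℕ) (p q : TV (2 * k + 2)) : Prop :=
  p.1.1 = 2 * k + 2 ∧ q.1.1 = 2 * k + 2 ∧ ∃ s, nb k p.1.2 s = q.1.2

theorem lt_W (v : TV (2 * k + 2)) (h : v.1.1 = 2 * k + 2) : v.1.2 < W k := by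
  have := v.2.2
  rw [h, ← W_eq] at this
  exact this

theorem nb_lt (hI : StmI) {a : ℕ} (s : Bool) (h : a < W k) : nb k a s < W k := (hI k).lt a s h

theorem nb_sym (hI : StmI) {a b : ℕ} {s : Bool} (ha : a < W k) (h : nb k a s = b) :
    ∃ s', nb k b s' = a := by
  refine ⟨(sg k a s).2, ?_⟩
  have := (hI k).inv a s ha
  rw [← h]
  unfold nb
  rw [this]

theorem Lf.symm (hI : StmI) {p q : TV (2 * k + 2)} (h : Lf k p q) : Lf k q p := by
  obtain ⟨h1, h2, s, h3⟩ := h
  exact ⟨h2, h1, nb_sym hI (lt_W p h1) h3⟩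

theorem adj_tr {i : ℕ} {p q : TV i} : (tr i).Adj p q ↔ Up p q ∨ Up q p := by
  unfold tr Up
  rw [SimpleGraph.fromRel_adj]
  constructor
  · rintro ⟨_, h⟩
    exact h
  · intro h
    refine ⟨?_, h⟩
    rintro rfl
    rcases h with h | h <;> omega

theorem adj_Gr (hI : StmI) (hG : StmG) {p q : TV (2 * k + 2)} :
    (Gr k).Adj p q ↔ Up p q ∨ Up q p ∨ Lf k p q := by
  unfold Gr
  rw [SimpleGraph.fromRel_adj]
  constructor
  · rintro ⟨_, (h | h) | (h | h)⟩
    · exact Or.inl h
    · exact Or.inr (Or.inr h)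
    · exact Or.inr (Or.inl h)
    · exact Or.inr (Or.inr (Lf.symm hI h))
  · intro h
    refine ⟨?_, ?_⟩
    · rintro rfl
      rcases h with h | h | h
      · have := h.1; omega
      · have := h.1; omega
      · obtain ⟨h1, _, s, h3⟩ := h
        exact (hG k).sib _ s (lt_W p h1) (by rw [h3])
    · rcases h with h | h | h
      · exact Or.inl (Or.inl h)
      · exact Or.inr (Or.inl h)
      · exact Or.inl (Or.inr h)

theorem tr_le (hI : StmI) (hG : StmG) : tr (2 * k + 2) ≤ Gr k := by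
  intro p q h
  rw [adj_tr] at h
  rw [adj_Gr hI hG]
  tauto

theorem TV.ext' {i : ℕ} {p q : TV i} (h1 : p.1.1 = q.1.1) (h2 : p.1.2 = q.1.2) : p = q :=
  Subtype.ext (Prod.ext h1 h2)

/-- two parents are equal -/
theorem up_unique {i : ℕ} {p q v : TV i} (h : Up p v) (h' : Up q v) : p = q := by
  have e : p.1.1 = q.1.1 := by have := h.1; have := h'.1; omega
  exact TV.ext' e (by rw [h.2, h'.2, e])

/-- tree adjacency -/
def TA {i : ℕ} (p q : TV i) : Prop := Up p q ∨ Up q p

theorem TA.symm {i : ℕ} {p q : TV i} (h : TA p q) : TA q p := Or.symm h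

theorem TA.lev {i : ℕ} {p q : TV i} (h : TA p q) : q.1.1 = p.1.1 + 1 ∨ p.1.1 = q.1.1 + 1 :=
  h.imp And.left And.left

theorem adj_cases (hI : StmI) (hG : StmG) {p q : TV (2 * k + 2)} (h : (Gr k).Adj p q) :
    TA p q ∨ Lf k p q := by
  rw [adj_Gr hI hG] at h
  unfold TA
  tauto

theorem Lf.lev {p q : TV (2 * k + 2)} (h : Lf k p q) : p.1.1 = 2 * k + 2 ∧ q.1.1 = 2 * k + 2 :=
  ⟨h.1, h.2.1⟩

/-- a tree neighbour of a leaf is its parent -/
theorem TA.up_of_leaf {i : ℕ} {p q : TV i} (h : TA p q) (hq : q.1.1 = i) : Up p q := by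
  rcases h with h | h
  · exact h
  · have := h.1; have := p.2.1; omega

/-- siblings are not joined -/
theorem no_sib (hG : StmG) {p q v : TV (2 * k + 2)} (h : Lf k p q) (hp : Up v p) (hq : Up v q) :
    False := by
  obtain ⟨e1, e2, s, e3⟩ := h
  have l0 : v.1.1 ≠ 0 := by have := hp.1; omega
  have l1 := hp.2
  have l2 := hq.2
  unfold par at l1 l2
  rw [if_neg l0] at l1 l2
  exact (hG k).sib _ s (lt_W p e1) (by rw [e3]; omega)

theorem tri1 (hG : StmG) {a b c : TV (2 * k + 2)} (h1 : Lf k a b) (h2 : TA b c) (h3 : TA c a) :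
    False :=
  no_sib hG h1 (h3.up_of_leaf h1.1) (h2.symm.up_of_leaf h1.2.1)

/-- the outer neighbours of a leaf -/
theorem Lf.out {a b c : TV (2 * k + 2)} (h1 : Lf k b a) (h2 : Lf k b c) (h : a ≠ c) :
    ∃ s, nb k b.1.2 s = a.1.2 ∧ nb k b.1.2 (!s) = c.1.2 := by
  obtain ⟨e1, e2, s, e3⟩ := h1
  obtain ⟨_, f2, s', f3⟩ := h2
  refine ⟨s, e3, ?_⟩
  have : s' = !s := by
    by_contra hs
    have hs' : s' = s := by cases s <;> cases s' <;> simp_all
    rw [hs', e3] at f3
    exact h (TV.ext' (by rw [e2, f2]) f3)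
  rw [← this]
  exact f3

theorem tri3 (hI : StmI) (hG : StmG) {a b c : TV (2 * k + 2)} (h1 : Lf k a b) (h2 : Lf k b c)
    (h3 : Lf k c a) (h : a ≠ c) : False := by
  obtain ⟨s, e1, e2⟩ := Lf.out (h1.symm hI) h2 h
  obtain ⟨_, _, s', e3⟩ := h3.symm hI
  exact (hG k).tri b.1.2 s s' (lt_W b h2.1) (by rw [e1, e2]; exact e3)

theorem no_tri (hI : StmI) (hG : StmG) {a b c : TV (2 * k + 2)} (h1 : (Gr k).Adj a b)
    (h2 : (Gr k).Adj b c) (h3 : (Gr k).Adj c a) : False := by
  have hca := h3.ne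
  rcases adj_cases hI hG h1 with h1 | h1 <;> rcases adj_cases hI hG h2 with h2 | h2 <;>
    rcases adj_cases hI hG h3 with h3 | h3
  · have := h1.lev; have := h2.lev; have := h3.lev; omega
  · exact tri1 hG h3 h1 h2
  · exact tri1 hG h2 h3 h1
  · have := h1.lev; have := h2.lev; have := h3.lev; omega
  · exact tri1 hG h1 h2 h3
  · have := h1.lev; have := h2.lev; have := h3.lev; omega
  · have := h1.lev; have := h2.lev; have := h3.lev; omega
  · exact tri3 hI hG h1 h2 h3 hca.symm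

/-- two leaf edges meeting at `c` and a common parent -/
theorem quad2 (hG : StmG) {a b c d : TV (2 * k + 2)} (h2 : Lf k c b) (h3 : Lf k c d)
    (hb : TA a b) (hd : TA a d) (h : b ≠ d) : False := by
  obtain ⟨s, e1, e2⟩ := Lf.out h2 h3 h
  have u1 := hb.up_of_leaf h2.2.1
  have u2 := hd.up_of_leaf h3.2.1
  have l0 : a.1.1 ≠ 0 := by have := u1.1; have := h2.2.1; omega
  have l1 := u1.2
  have l2 := u2.2
  unfold par at l1 l2
  rw [if_neg l0] at l1 l2
  have := (hG k).sib2 c.1.2 (lt_W c h2.1)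
  cases s
  · simp only [Bool.not_false] at e2
    rw [e1, e2] at this
    omega
  · simp only [Bool.not_true] at e2
    rw [e1, e2] at this
    omega

theorem quad4 (hI : StmI) (hG : StmG) {a b c d : TV (2 * k + 2)} (h1 : Lf k a b)
    (h2 : Lf k b c) (h3 : Lf k c d) (h4 : Lf k d a) (h : a ≠ c) (h' : b ≠ d) : False := by
  obtain ⟨s, e1, e2⟩ := Lf.out h1 (h4.symm hI) h'
  obtain ⟨_, _, s1, e3⟩ := h2
  obtain ⟨_, _, s2, e4⟩ := h3.symm hI
  have hl := h1.1
  have hne : c.1.2 ≠ a.1.2 := fun hc => h (TV.ext' (by rw [h1.1, h3.1]) hc.symm)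
  cases s
  · simp only [Bool.not_false] at e2
    have := (hG k).quad a.1.2 s1 s2 (lt_W a hl) (by rw [e1, e3]; exact hne)
      (by rw [e2, e4]; exact hne)
    rw [e1, e2, e3, e4] at this
    exact this rfl
  · simp only [Bool.not_true] at e2
    have := (hG k).quad a.1.2 s2 s1 (lt_W a hl) (by rw [e2, e4]; exact hne)
      (by rw [e1, e3]; exact hne)
    rw [e1, e2, e3, e4] at this
    exact this rfl

theorem quad0 {i : ℕ} {a b c d : TV i} (h1 : TA a b) (h2 : TA b c) (h3 : TA c d) (h4 : TA d a)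
    (h : a ≠ c) (h' : b ≠ d) : False := by
  rcases h1 with h1 | h1 <;> rcases h2 with h2 | h2 <;> rcases h3 with h3 | h3 <;>
    rcases h4 with h4 | h4 <;>
    first
    | exact h (up_unique h1 h2)
    | exact h' (up_unique h2 h3)
    | exact h (up_unique h4 h3)
    | exact h' (up_unique h1 h4)
    | (have e1 := h1.1; have e2 := h2.1; have e3 := h3.1; have e4 := h4.1; omega)

theorem no_quad (hI : StmI) (hG : StmG) {a b c d : TV (2 * k + 2)} (h1 : (Gr k).Adj a b)
    (h2 : (Gr k).Adj b c) (h3 : (Gr k).Adj c d) (h4 : (Gr k).Adj d a)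
    (h : a ≠ c) (h' : b ≠ d) : False := by
  rcases adj_cases hI hG h1 with h1 | h1 <;> rcases adj_cases hI hG h2 with h2 | h2 <;>
    rcases adj_cases hI hG h3 with h3 | h3 <;> rcases adj_cases hI hG h4 with h4 | h4
  · exact quad0 h1 h2 h3 h4 h h'
  · have := h1.lev; have := h2.lev; have := h3.lev; have := h4.lev; omega
  · have := h1.lev; have := h2.lev; have := h3.lev; have := h4.lev; omega
  · exact quad2 hG (h3.symm hI) h4 h2 h1.symm h.symm
  · have := h1.lev; have := h2.lev; have := h3.lev; have := h4.lev; omega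
  · have := h1.lev; have := h2.lev; have := h3.lev; have := h4.lev; omega
  · exact quad2 hG (h2.symm hI) h3 h1 h4.symm h'
  · have := h1.lev; have := h2.lev; have := h3.lev; have := h4.lev; omega
  · have := h1.lev; have := h2.lev; have := h3.lev; have := h4.lev; omega
  · exact quad2 hG (h4.symm hI) h1 h3 h2.symm h'.symm
  · have := h1.lev; have := h2.lev; have := h3.lev; have := h4.lev; omega
  · have := h1.lev; have := h2.lev; have := h3.lev; have := h4.lev; omega
  · exact quad2 hG (h1.symm hI) h2 h4 h3.symm h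
  · have := h1.lev; have := h2.lev; have := h3.lev; have := h4.lev; omega
  · have := h1.lev; have := h2.lev; have := h3.lev; have := h4.lev; omega
  · exact quad4 hI hG h1 h2 h3 h4 h h'

end Pool.Agent.H802.RS
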