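import Pool.Agent.H802.RS.F1

/-! Girth, degrees and colourings of the graphs `Gr k`. -/

namespace Pool.Agent.H802.RS

variable {k : ℕ}

theorem girth_Gr (hI : StmI) (hG : StmG) : 5 ≤ (Gr k).egirth := by
  rw [SimpleGraph.le_egirth]
  intro a w hw
  have h3 := hw.three_le_length
  have hn := hw.support_nodup
  suffices h : 5 ≤ w.length by exact_mod_cast h
  by_contra hlt
  push Not at hlt
  cases w with
  | nil => simp at h3
  | cons h1 w1 =>
    rename_i b
    cases w1 with
    | nil => simp at h3
    | cons h2 w2 =>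
      rename_i c
      cases w2 with
      | nil => simp at h3
      | cons h3' w3 =>
        rename_i d
        cases w3 with
        | nil => exact no_tri hI hG h1 h2 h3'
        | cons h4 w4 =>
          cases w4 with
          | nil =>
            simp only [SimpleGraph.Walk.support_cons, SimpleGraph.Walk.support_nil,
              List.tail_cons, List.nodup_cons, List.mem_cons, List.not_mem_nil, or_false,
              not_or] at hn
            exact no_quad hI hG h1 h2 h3' h4 (fun h => hn.2.1.2 h.symm) hn.1.2.1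
          | cons h5 w5 =>
            simp only [SimpleGraph.Walk.length_cons] at hlt
            omega

/-- the vertex with level `j` and index `a` -/
def vx (i j a : ℕ) : TV i := if h : j ≤ i ∧ a < wd j then ⟨(j, a), h⟩ else ctr i

theorem vx_val {i j a : ℕ} (h1 : j ≤ i) (h2 : a < wd j) : (vx i j a).1 = (j, a) := by
  have : vx i j a = ⟨(j, a), ⟨h1, h2⟩⟩ := dif_pos ⟨h1, h2⟩
  rw [this]

theorem vx_self {i : ℕ} (v : TV i) : vx i v.1.1 v.1.2 = v := dif_pos v.2

theorem wd_pos (j : ℕ) : 0 < wd j := by
  cases j with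
  | zero => simp [wd]
  | succ j => simp only [wd]; positivity

theorem par_lt {j a : ℕ} (h : a < wd (j + 1)) : par j a < wd j := by
  unfold par
  split_ifs with hj
  · exact wd_pos _
  · rw [wd_succ j (by omega)] at h
    omega

theorem vx_ne {i j a b : ℕ} (h1 : j ≤ i) (h2 : a < wd j) (h3 : b < wd j) (h : a ≠ b) :
    vx i j a ≠ vx i j b := by
  intro he
  have := congrArg (fun v => v.1.2) he
  simp only [vx_val h1 h2, vx_val h1 h3] at this
  exact h this

theorem vx_ne' {i j j' a b : ℕ} (h1 : j ≤ i) (h2 : a < wd j) (h1' : j' ≤ i) (h3 : b < wd j')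
    (h : j ≠ j') : vx i j a ≠ vx i j' b := by
  intro he
  have := congrArg (fun v => v.1.1) he
  simp only [vx_val h1 h2, vx_val h1' h3] at this
  exact h this

theorem up_vx {i j a : ℕ} (h1 : j + 1 ≤ i) (h2 : a < wd (j + 1)) :
    Up (vx i j (par j a)) (vx i (j + 1) a) := by
  unfold Up
  rw [vx_val h1 h2, vx_val (by omega) (par_lt h2)]
  exact ⟨rfl, rfl⟩

theorem lf_vx (hI : StmI) {a : ℕ} (s : Bool) (h : a < W k) :
    Lf k (vx (2 * k + 2) (2 * k + 2) a) (vx (2 * k + 2) (2 * k + 2) (nb k a s)) := by
  have h2 := nb_lt hI s h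
  unfold Lf
  rw [vx_val le_rfl (by rw [← W_eq]; exact h), vx_val le_rfl (by rw [← W_eq]; exact h2)]
  exact ⟨rfl, rfl, s, rfl⟩

/-- the neighbours of a vertex -/
theorem nbrs (hI : StmI) (hG : StmG) (v : TV (2 * k + 2)) : ∃ x y z, x ≠ y ∧ x ≠ z ∧ y ≠ z ∧
    (Gr k).neighborSet v = {x, y, z} := by
  rcases Nat.eq_zero_or_pos v.1.1 with h0 | h0
  · have hv0 : v.1.2 = 0 := by
      have := v.2.2
      rw [h0] at this
      simp only [wd] at this
      omega
    have w1 : wd 1 = 3 := rfl
    refine ⟨vx _ 1 0, vx _ 1 1, vx _ 1 2, vx_ne (by omega) (by omega) (by omega) (by omega),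
      vx_ne (by omega) (by omega) (by omega) (by omega),
      vx_ne (by omega) (by omega) (by omega) (by omega), ?_⟩
    ext u
    rw [SimpleGraph.mem_neighborSet, adj_Gr hI hG]
    simp only [Set.mem_insert_iff, Set.mem_singleton_iff]
    constructor
    · rintro (h | h | h)
      · have e := h.1
        rw [h0] at e
        have e2 := u.2.2
        rw [e] at e2
        have e3 : u.1.2 < 3 := e2
        have e4 : vx (2 * k + 2) 1 u.1.2 = u := by
          have := vx_self u
          rw [e] at this
          exact this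
        rw [← e4]
        interval_cases u.1.2 <;> simp
      · have := h.1; omega
      · have := h.1; omega
    · intro h
      left
      have key : ∀ a, a < 3 → Up v (vx (2 * k + 2) 1 a) := by
        intro a ha
        unfold Up
        rw [vx_val (by omega) ha]
        refine ⟨by omega, ?_⟩
        rw [hv0, h0]
        rfl
      rcases h with rfl | rfl | rfl
      · exact key 0 (by norm_num)
      · exact key 1 (by norm_num)
      · exact key 2 (by norm_num)
  · obtain ⟨j, hj⟩ : ∃ j, v.1.1 = j + 1 := ⟨v.1.1 - 1, by omega⟩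
    have hvle := v.2.1
    have hvlt := v.2.2
    rw [hj] at hvle hvlt
    have hpar : Up (vx (2 * k + 2) j (par j v.1.2)) v := by
      have := up_vx (i := 2 * k + 2) hvle hvlt
      have e := vx_self v
      rw [hj] at e
      rw [e] at this
      exact this
    have hpv := par_lt hvlt
    by_cases hlf : v.1.1 = 2 * k + 2
    · have hW := lt_W v hlf
      have e := vx_self v
      rw [hlf] at e
      have l0 := lf_vx hI false hW
      have l1 := lf_vx hI true hW
      rw [e] at l0 l1
      have n0 : nb k v.1.2 false < wd (2 * k + 2) := by rw [← W_eq]; exact nb_lt hI _ hW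
      have n1 : nb k v.1.2 true < wd (2 * k + 2) := by rw [← W_eq]; exact nb_lt hI _ hW
      refine ⟨vx _ j (par j v.1.2), vx _ (2 * k + 2) (nb k v.1.2 false),
        vx _ (2 * k + 2) (nb k v.1.2 true), vx_ne' (by omega) hpv le_rfl n0 (by omega),
        vx_ne' (by omega) hpv le_rfl n1 (by omega), vx_ne le_rfl n0 n1 ((hG k).dif _ hW), ?_⟩
      ext u
      rw [SimpleGraph.mem_neighborSet, adj_Gr hI hG]
      simp only [Set.mem_insert_iff, Set.mem_singleton_iff]
      constructor
      · rintro (h | h | h)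
        · have := h.1; have := u.2.1; omega
        · exact Or.inl (up_unique h hpar)
        · right
          obtain ⟨_, h2, s, h3⟩ := h
          have e4 := vx_self u
          rw [h2, ← h3] at e4
          cases s
          · exact Or.inl e4.symm
          · exact Or.inr e4.symm
      · rintro (rfl | rfl | rfl)
        · exact Or.inr (Or.inl hpar)
        · exact Or.inr (Or.inr l0)
        · exact Or.inr (Or.inr l1)
    · have hw : wd (j + 2) = 2 * wd (j + 1) := wd_succ _ (by omega)
      have hvl : j + 2 ≤ 2 * k + 2 := by have := v.2.1; omega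
      have c0 : 2 * v.1.2 < wd (j + 2) := by omega
      have c1 : 2 * v.1.2 + 1 < wd (j + 2) := by omega
      have key : ∀ r, r < 2 → Up v (vx (2 * k + 2) (j + 2) (2 * v.1.2 + r)) := by
        intro r hr
        unfold Up
        rw [vx_val hvl (by omega)]
        refine ⟨by rw [hj], ?_⟩
        simp only [par]
        rw [if_neg (by omega)]
        omega
      refine ⟨vx _ j (par j v.1.2), vx _ (j + 2) (2 * v.1.2), vx _ (j + 2) (2 * v.1.2 + 1),
        vx_ne' (by omega) hpv hvl c0 (by omega), vx_ne' (by omega) hpv hvl c1 (by omega),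
        vx_ne hvl c0 c1 (by omega), ?_⟩
      ext u
      rw [SimpleGraph.mem_neighborSet, adj_Gr hI hG]
      simp only [Set.mem_insert_iff, Set.mem_singleton_iff]
      constructor
      · rintro (h | h | h)
        · right
          have e1 := h.1
          have e2 := h.2
          rw [hj] at e1
          unfold par at e2
          rw [if_neg (by omega)] at e2
          have e4 := vx_self u
          rw [e1] at e4
          have e5 : u.1.2 = 2 * v.1.2 ∨ u.1.2 = 2 * v.1.2 + 1 := by omega
          rcases e5 with e5 | e5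
          · left; rw [← e4, e5]
          · right; rw [← e4, e5]
        · exact Or.inl (up_unique h hpar)
        · exact absurd h.1 hlf
      · rintro (rfl | rfl | rfl)
        · exact Or.inr (Or.inl hpar)
        · exact Or.inl (key 0 (by norm_num))
        · exact Or.inl (key 1 (by norm_num))

theorem cubic_Gr (hI : StmI) (hG : StmG) (v : TV (2 * k + 2)) :
    ((Gr k).neighborSet v).ncard = 3 := by
  rw [Set.ncard_eq_three]
  exact nbrs hI hG v

/-! ### colourings -/

/-- the three nonzero elements -/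
def gc (x : Fin 3) : K4 := if x = 0 then (1, 0) else if x = 1 then (0, 1) else (1, 1)

theorem gc_ne (x : Fin 3) : gc x ≠ 0 := by revert x; decide

theorem gc_sum : ∀ x y z : Fin 3, x ≠ y → x ≠ z → y ≠ z → gc x = gc y + gc z := by decide

theorem gc_sum0 : ∀ x y z : Fin 3, x ≠ y → x ≠ z → y ≠ z → gc x + gc y + gc z = 0 := by decide

theorem col_Gr (hI : StmI) (hG : StmG) (hN : StmN) : ¬ ∃ c : Sym2 (TV (2 * k + 2)) → Fin 3,
    ∀ u v w, (Gr k).Adj u v → (Gr k).Adj u w → v ≠ w → c s(u, v) ≠ c s(u, w) := by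
  rintro ⟨c, hc⟩
  have hup : ∀ j a, j + 1 ≤ 2 * k + 2 → a < wd (j + 1) →
      (Gr k).Adj (vx (2 * k + 2) (j + 1) a) (vx (2 * k + 2) j (par j a)) := by
    intro j a h1 h2
    rw [adj_Gr hI hG]
    exact Or.inr (Or.inl (up_vx h1 h2))
  have hlf : ∀ a s, a < W k → (Gr k).Adj (vx (2 * k + 2) (2 * k + 2) a)
      (vx (2 * k + 2) (2 * k + 2) (nb k a s)) := by
    intro a s h
    rw [adj_Gr hI hG]
    exact Or.inr (Or.inr (lf_vx hI s h))
  refine hN k (fun j a => gc (c s(vx (2 * k + 2) j a, vx (2 * k + 2) (j - 1) (par (j - 1) a))))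
    (fun a s => gc (c s(vx (2 * k + 2) (2 * k + 2) a, vx (2 * k + 2) (2 * k + 2) (nb k a s))))
    ⟨fun _ _ _ _ _ => gc_ne _, fun _ _ _ => gc_ne _, ?_, ?_, ?_, ?_⟩
  · intro a s ha
    have h := (hI k).inv a s ha
    have h2 : nb k (sg k a s).1 (sg k a s).2 = a := by unfold nb; rw [h]
    simp only [h2]
    rw [Sym2.eq_swap]
    rfl
  · have w1 : wd (0 + 1) = 3 := rfl
    have a0 : (Gr k).Adj (vx (2 * k + 2) 0 0) (vx (2 * k + 2) 1 0) :=
      (hup 0 0 (by omega) (by omega)).symm
    have a1 : (Gr k).Adj (vx (2 * k + 2) 0 0) (vx (2 * k + 2) 1 1) :=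
      (hup 0 1 (by omega) (by omega)).symm
    have a2 : (Gr k).Adj (vx (2 * k + 2) 0 0) (vx (2 * k + 2) 1 2) :=
      (hup 0 2 (by omega) (by omega)).symm
    have w1' : wd 1 = 3 := rfl
    have k0 := hc _ _ _ a0 a1 (vx_ne (by omega) (by omega) (by omega) (by omega))
    have k1 := hc _ _ _ a0 a2 (vx_ne (by omega) (by omega) (by omega) (by omega))
    have k2 := hc _ _ _ a1 a2 (vx_ne (by omega) (by omega) (by omega) (by omega))
    rw [Sym2.eq_swap, Sym2.eq_swap (a := vx (2 * k + 2) 0 0) (b := vx (2 * k + 2) 1 1)] at k0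
    rw [Sym2.eq_swap, Sym2.eq_swap (a := vx (2 * k + 2) 0 0) (b := vx (2 * k + 2) 1 2)] at k1
    rw [Sym2.eq_swap, Sym2.eq_swap (a := vx (2 * k + 2) 0 0) (b := vx (2 * k + 2) 1 2)] at k2
    exact gc_sum0 _ _ _ k0 k1 k2
  · intro j a h1 h2 h3
    obtain ⟨j, rfl⟩ : ∃ m, j = m + 1 := ⟨j - 1, by omega⟩
    have hw : wd (j + 1 + 1) = 2 * wd (j + 1) := wd_succ (j + 1) (by omega)
    have c0 : 2 * a < wd (j + 1 + 1) := by omega
    have c1 : 2 * a + 1 < wd (j + 1 + 1) := by omega
    have p0 : par (j + 1) (2 * a) = a := by unfold par; rw [if_neg (by omega)]; omega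
    have p1 : par (j + 1) (2 * a + 1) = a := by unfold par; rw [if_neg (by omega)]; omega
    have q := hup j a (by omega) h3
    have q0 := (hup (j + 1) (2 * a) (by omega) c0).symm
    have q1 := (hup (j + 1) (2 * a + 1) (by omega) c1).symm
    rw [p0] at q0
    rw [p1] at q1
    have hpl := par_lt h3
    have k0 := hc _ _ _ q q0 (vx_ne' (by omega) hpl (by omega) c0 (by omega))
    have k1 := hc _ _ _ q q1 (vx_ne' (by omega) hpl (by omega) c1 (by omega))
    have k2 := hc _ _ _ q0 q1 (vx_ne (by omega) c0 c1 (by omega))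
    rw [Sym2.eq_swap (a := vx (2 * k + 2) (j + 1) a)
        (b := vx (2 * k + 2) (j + 1 + 1) (2 * a))] at k0
    rw [Sym2.eq_swap (a := vx (2 * k + 2) (j + 1) a)
        (b := vx (2 * k + 2) (j + 1 + 1) (2 * a + 1))] at k1
    rw [Sym2.eq_swap (a := vx (2 * k + 2) (j + 1) a)
        (b := vx (2 * k + 2) (j + 1 + 1) (2 * a)), Sym2.eq_swap (a := vx (2 * k + 2) (j + 1) a)
        (b := vx (2 * k + 2) (j + 1 + 1) (2 * a + 1))] at k2
    simp only [Nat.add_sub_cancel, p0, p1]
    exact gc_sum _ _ _ k0 k1 k2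
  · intro a ha
    have haw : a < wd (2 * k + 1 + 1) := by
      have := W_eq k
      show a < wd (2 * k + 2)
      omega
    have q := hup (2 * k + 1) a (by omega) haw
    have q0 := hlf a false ha
    have q1 := hlf a true ha
    have n0 : nb k a false < wd (2 * k + 2) := by rw [← W_eq]; exact nb_lt hI _ ha
    have n1 : nb k a true < wd (2 * k + 2) := by rw [← W_eq]; exact nb_lt hI _ ha
    exact gc_sum _ _ _ (hc _ _ _ q q0 (vx_ne' (by omega) (par_lt haw) le_rfl n0 (by omega)))
      (hc _ _ _ q q1 (vx_ne' (by omega) (par_lt haw) le_rfl n1 (by omega)))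
      (hc _ _ _ q0 q1 (vx_ne le_rfl n0 n1 ((hG k).dif _ ha)))

end Pool.Agent.H802.RS
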