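import Pool.Agent.H802.RS.F2

/-! The graphs `Gr k` are rotation snarks, given the pieces I, G, C, T, N. -/

namespace Pool.Agent.H802.RS

variable {k : ℕ}

/-- the indicator function of a set of vertices -/
noncomputable def ind (A : Set (TV (2 * k + 2))) (j a : ℕ) : Bool :=
  @decide (vx (2 * k + 2) j a ∈ A) (Classical.propDecidable _)

theorem ind_iff (A : Set (TV (2 * k + 2))) (j a : ℕ) :
    ind A j a = true ↔ vx (2 * k + 2) j a ∈ A := by
  unfold ind
  exact @decide_eq_true_iff _ (Classical.propDecidable _)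

theorem ind_false_iff (A : Set (TV (2 * k + 2))) (j a : ℕ) :
    ind A j a = false ↔ vx (2 * k + 2) j a ∉ A := by
  unfold ind
  exact @decide_eq_false_iff_not _ (Classical.propDecidable _)

theorem cnt_eq (A : ℕ → ℕ → Bool) (b : Bool) : cnt k A b =
    (((Finset.range (2 * k + 3)).sigma (fun j => Finset.range (wd j))).filter
      (fun p => A p.1 p.2 = b)).card := by
  unfold cnt
  rw [Finset.card_filter, Finset.sum_sigma]

theorem two_le_cnt {A : ℕ → ℕ → Bool} {b : Bool} {u v : TV (2 * k + 2)} (huv : u ≠ v)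
    (hu : A u.1.1 u.1.2 = b) (hv : A v.1.1 v.1.2 = b) : 2 ≤ cnt k A b := by
  rw [cnt_eq]
  refine Finset.one_lt_card.2 ⟨⟨u.1.1, u.1.2⟩, ?_, ⟨v.1.1, v.1.2⟩, ?_, ?_⟩
  · simp only [Finset.mem_filter, Finset.mem_sigma, Finset.mem_range]
    exact ⟨⟨by have := u.2.1; omega, u.2.2⟩, hu⟩
  · simp only [Finset.mem_filter, Finset.mem_sigma, Finset.mem_range]
    exact ⟨⟨by have := v.2.1; omega, v.2.2⟩, hv⟩
  · intro h
    apply huv
    have h1 : u.1.1 = v.1.1 := congrArg Sigma.fst h
    have h2 : u.1.2 = v.1.2 := congrArg (fun p : (_ : ℕ) × ℕ => p.2) h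
    exact Subtype.ext (Prod.ext h1 h2)

theorem exists_two {A : Set (TV (2 * k + 2))} {G : SimpleGraph (TV (2 * k + 2))}
    (h : ¬ (G.induce A).IsAcyclic) : ∃ u ∈ A, ∃ v ∈ A, u ≠ v := by
  by_contra hc
  push Not at hc
  apply h
  have : Subsingleton A := ⟨fun u v => Subtype.ext (hc u.1 u.2 v.1 v.2)⟩
  exact SimpleGraph.IsAcyclic.of_subsingleton

/-- the tree edges at which `A` changes -/
noncomputable def TC (A : Set (TV (2 * k + 2))) : Finset ((_ : ℕ) × ℕ) :=
  ((Finset.range (2 * k + 2)).sigma (fun j => Finset.range (wd (j + 1)))).filter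
    (fun p => ¬ ind A (p.1 + 1) p.2 = ind A p.1 (par p.1 p.2))

/-- the outer half-edges from a member to a non-member -/
noncomputable def HC (A : Set (TV (2 * k + 2))) : Finset (ℕ × Bool) :=
  ((Finset.range (W k)) ×ˢ (Finset.univ : Finset Bool)).filter
    (fun p => ind A (2 * k + 2) p.1 = true ∧ ind A (2 * k + 2) (nb k p.1 p.2) = false)

/-- the outer half-edges from a non-member to a member -/
noncomputable def HC' (A : Set (TV (2 * k + 2))) : Finset (ℕ × Bool) :=
  ((Finset.range (W k)) ×ˢ (Finset.univ : Finset Bool)).filter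
    (fun p => ind A (2 * k + 2) p.1 = false ∧ ind A (2 * k + 2) (nb k p.1 p.2) = true)

theorem hc_le (hI : StmI) (A : Set (TV (2 * k + 2))) : (HC' A).card ≤ (HC A).card := by
  refine Finset.card_le_card_of_injOn (fun p => sg k p.1 p.2) ?_ ?_
  · intro p hp
    simp only [HC', Finset.coe_filter, Finset.mem_product, Finset.mem_range, Finset.mem_univ,
      and_true, Set.mem_ofPred_eq] at hp
    obtain ⟨h1, h2, h3⟩ := hp
    simp only [HC, Finset.coe_filter, Finset.mem_product, Finset.mem_range, Finset.mem_univ,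
      and_true, Set.mem_ofPred_eq]
    refine ⟨(hI k).lt _ _ h1, h3, ?_⟩
    have : nb k (sg k p.1 p.2).1 (sg k p.1 p.2).2 = p.1 := by
      unfold nb
      rw [(hI k).inv _ _ h1]
    rw [this]
    exact h2
  · intro p hp q hq h
    simp only [HC', Finset.coe_filter, Finset.mem_product, Finset.mem_range, Finset.mem_univ,
      and_true, Set.mem_ofPred_eq] at hp hq
    have e1 := (hI k).inv _ p.2 hp.1
    have e2 := (hI k).inv _ q.2 hq.1
    simp only at h
    rw [h, e2] at e1
    exact Prod.ext (congrArg Prod.fst e1).symm (congrArg Prod.snd e1).symm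

theorem cut2_le (hI : StmI) (A : Set (TV (2 * k + 2))) :
    cut2 k (ind A) ≤ 2 * ((TC A).card + (HC A).card) := by
  have h1 : ∑ j ∈ Finset.range (2 * k + 2), ∑ a ∈ Finset.range (wd (j + 1)),
      (if ind A (j + 1) a = ind A j (par j a) then 0 else 1) = (TC A).card := by
    unfold TC
    rw [Finset.card_filter, Finset.sum_sigma]
    refine Finset.sum_congr rfl fun j _ => Finset.sum_congr rfl fun a _ => ?_
    simp only [ite_not]
  have h2 : ∑ a ∈ Finset.range (W k), ∑ s : Bool,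
      (if ind A (2 * k + 2) a = ind A (2 * k + 2) (nb k a s) then 0 else 1) =
      (HC A).card + (HC' A).card := by
    unfold HC HC'
    rw [Finset.card_filter, Finset.card_filter, ← Finset.sum_add_distrib,
      Finset.sum_product]
    refine Finset.sum_congr rfl fun a _ => Finset.sum_congr rfl fun s _ => ?_
    simp only
    cases ind A (2 * k + 2) a <;> cases ind A (2 * k + 2) (nb k a s) <;> simp
  unfold cut2
  rw [h1, h2]
  have := hc_le hI A
  omega

theorem card_le_cut (hI : StmI) (hG : StmG) (A : Set (TV (2 * k + 2))) :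
    (TC A).card + (HC A).card ≤
      {e | e ∈ (Gr k).edgeSet ∧ ∃ u ∈ A, ∃ v ∉ A, e = s(u, v)}.ncard := by
  classical
  set E := {e | e ∈ (Gr k).edgeSet ∧ ∃ u ∈ A, ∃ v ∉ A, e = s(u, v)} with hE
  have hfin : E.Finite := Set.toFinite _
  let f : (_ : ℕ) × ℕ → Sym2 (TV (2 * k + 2)) := fun p =>
    s(vx (2 * k + 2) (p.1 + 1) p.2, vx (2 * k + 2) p.1 (par p.1 p.2))
  let g : ℕ × Bool → Sym2 (TV (2 * k + 2)) := fun p =>
    s(vx (2 * k + 2) (2 * k + 2) p.1, vx (2 * k + 2) (2 * k + 2) (nb k p.1 p.2))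
  have mT : ∀ p, p ∈ TC A → p.1 < 2 * k + 2 ∧ p.2 < wd (p.1 + 1) ∧
      ¬ ind A (p.1 + 1) p.2 = ind A p.1 (par p.1 p.2) := by
    intro p hp
    simp only [TC, Finset.mem_filter, Finset.mem_sigma, Finset.mem_range] at hp
    exact ⟨hp.1.1, hp.1.2, hp.2⟩
  have mH : ∀ p, p ∈ HC A → p.1 < W k ∧ ind A (2 * k + 2) p.1 = true ∧
      ind A (2 * k + 2) (nb k p.1 p.2) = false := by
    intro p hp
    simp only [HC, Finset.mem_filter, Finset.mem_product, Finset.mem_range, Finset.mem_univ,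
      and_true] at hp
    exact ⟨hp.1, hp.2.1, hp.2.2⟩
  have vT : ∀ p, p ∈ TC A → (vx (2 * k + 2) (p.1 + 1) p.2).1 = (p.1 + 1, p.2) ∧
      (vx (2 * k + 2) p.1 (par p.1 p.2)).1 = (p.1, par p.1 p.2) := by
    intro p hp
    obtain ⟨h1, h2, _⟩ := mT p hp
    exact ⟨vx_val (by omega) h2, vx_val (by omega) (par_lt h2)⟩
  have vH : ∀ p, p ∈ HC A → (vx (2 * k + 2) (2 * k + 2) p.1).1 = (2 * k + 2, p.1) ∧
      (vx (2 * k + 2) (2 * k + 2) (nb k p.1 p.2)).1 = (2 * k + 2, nb k p.1 p.2) := by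
    intro p hp
    obtain ⟨h1, _⟩ := mH p hp
    have h2 := nb_lt hI p.2 h1
    exact ⟨vx_val le_rfl (by rw [← W_eq]; exact h1), vx_val le_rfl (by rw [← W_eq]; exact h2)⟩
  have fE : ∀ p, p ∈ TC A → f p ∈ E := by
    intro p hp
    obtain ⟨h1, h2, h3⟩ := mT p hp
    refine ⟨?_, ?_⟩
    · show (Gr k).Adj _ _
      rw [adj_Gr hI hG]
      exact Or.inr (Or.inl (up_vx (by omega) h2))
    · by_cases hu : vx (2 * k + 2) (p.1 + 1) p.2 ∈ A
      · have hv : vx (2 * k + 2) p.1 (par p.1 p.2) ∉ A := by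
          intro hv
          exact h3 (((ind_iff A _ _).2 hu).trans ((ind_iff A _ _).2 hv).symm)
        exact ⟨_, hu, _, hv, rfl⟩
      · have hv : vx (2 * k + 2) p.1 (par p.1 p.2) ∈ A := by
          by_contra hv
          exact h3 (((ind_false_iff A _ _).2 hu).trans ((ind_false_iff A _ _).2 hv).symm)
        exact ⟨_, hv, _, hu, Sym2.eq_swap⟩
  have gE : ∀ p, p ∈ HC A → g p ∈ E := by
    intro p hp
    obtain ⟨h1, h2, h3⟩ := mH p hp
    refine ⟨?_, _, (ind_iff A _ _).1 h2, _, (ind_false_iff A _ _).1 h3, rfl⟩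
    show (Gr k).Adj _ _
    rw [adj_Gr hI hG]
    exact Or.inr (Or.inr (lf_vx hI p.2 h1))
  have finj : Set.InjOn f (TC A : Set ((_ : ℕ) × ℕ)) := by
    intro p hp q hq h
    obtain ⟨p1, p2⟩ := vT p hp
    obtain ⟨q1, q2⟩ := vT q hq
    simp only [f, Sym2.eq_iff] at h
    rcases h with ⟨h, _⟩ | ⟨h, h'⟩
    · rw [h, q1] at p1
      have e1 := congrArg Prod.fst p1
      have e2 := congrArg Prod.snd p1
      simp only at e1 e2
      obtain ⟨pa, pb⟩ := p
      obtain ⟨qa, qb⟩ := q
      simp only at e1 e2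
      have : pa = qa := by omega
      subst this
      rw [e2]
    · rw [h, q2] at p1
      rw [h', q1] at p2
      have e1 := congrArg Prod.fst p1
      have e2 := congrArg Prod.fst p2
      simp only at e1 e2
      omega
  have ginj : Set.InjOn g (HC A : Set (ℕ × Bool)) := by
    intro p hp q hq h
    obtain ⟨p1, p2⟩ := vH p hp
    obtain ⟨q1, q2⟩ := vH q hq
    obtain ⟨p3, p4, p5⟩ := mH p hp
    obtain ⟨q3, q4, q5⟩ := mH q hq
    simp only [g, Sym2.eq_iff] at h
    rcases h with ⟨h, h'⟩ | ⟨h, h'⟩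
    · rw [h, q1] at p1
      rw [h', q2] at p2
      have e1 : q.1 = p.1 := congrArg Prod.snd p1
      have e2 : nb k q.1 q.2 = nb k p.1 p.2 := congrArg Prod.snd p2
      obtain ⟨pa, pb⟩ := p
      obtain ⟨qa, qb⟩ := q
      simp only at e1 e2 p3
      subst e1
      have := (hG k).dif _ p3
      cases pb <;> cases qb
      · rfl
      · exact absurd e2.symm this
      · exact absurd e2 this
      · rfl
    · exfalso
      rw [ind_iff] at p4
      rw [ind_false_iff] at q5
      rw [h] at p4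
      exact q5 p4
  have hdis : Disjoint ((TC A).image f) ((HC A).image g) := by
    rw [Finset.disjoint_left]
    intro e he he'
    rw [Finset.mem_image] at he he'
    obtain ⟨p, hp, rfl⟩ := he
    obtain ⟨q, hq, h⟩ := he'
    obtain ⟨p1, p2⟩ := vT p hp
    obtain ⟨q1, q2⟩ := vH q hq
    simp only [f, g, Sym2.eq_iff] at h
    rcases h with ⟨h, h'⟩ | ⟨h, h'⟩
    · rw [← h, q1] at p1
      rw [← h', q2] at p2
      have e1 := congrArg Prod.fst p1
      have e2 := congrArg Prod.fst p2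
      simp only at e1 e2
      omega
    · rw [← h', q2] at p1
      rw [← h, q1] at p2
      have e1 := congrArg Prod.fst p1
      have e2 := congrArg Prod.fst p2
      simp only at e1 e2
      omega
  rw [← Finset.card_image_of_injOn finj, ← Finset.card_image_of_injOn ginj,
    ← Finset.card_union_of_disjoint hdis, ← Set.ncard_coe_finset]
  refine Set.ncard_le_ncard ?_ hfin
  intro e he
  rw [Finset.mem_coe, Finset.mem_union, Finset.mem_image, Finset.mem_image] at he
  rcases he with ⟨p, hp, rfl⟩ | ⟨p, hp, rfl⟩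
  · exact fE p hp
  · exact gE p hp

theorem cyc_Gr (hI : StmI) (hG : StmG) (hC : StmC) (A : Set (TV (2 * k + 2)))
    (h1 : ¬ ((Gr k).induce A).IsAcyclic) (h2 : ¬ ((Gr k).induce Aᶜ).IsAcyclic) :
    4 ≤ {e | e ∈ (Gr k).edgeSet ∧ ∃ u ∈ A, ∃ v ∉ A, e = s(u, v)}.ncard := by
  obtain ⟨u, hu, v, hv, huv⟩ := exists_two h1
  obtain ⟨u', hu', v', hv', huv'⟩ := exists_two h2
  have c1 : 2 ≤ cnt k (ind A) true := two_le_cnt huv
    ((ind_iff A _ _).2 (by rw [vx_self]; exact hu)) ((ind_iff A _ _).2 (by rw [vx_self]; exact hv))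
  have c2 : 2 ≤ cnt k (ind A) false := two_le_cnt huv'
    ((ind_false_iff A _ _).2 (by rw [vx_self]; exact hu'))
    ((ind_false_iff A _ _).2 (by rw [vx_self]; exact hv'))
  have h := hC k (ind A) c1 c2
  have h3 := cut2_le hI A
  have h4 := card_le_cut hI hG A
  omega

theorem tr_le' (hI : StmI) (hG : StmG) : tr (2 * k + 2) ≤ Gr k := by
  intro p q h
  rw [adj_tr] at h
  rw [adj_Gr hI hG]
  rcases h with h | h
  · exact Or.inl h
  · exact Or.inr (Or.inl h)

theorem snark_Gr (hI : StmI) (hG : StmG) (hC : StmC) (hT : StmT) (hN : StmN) :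
    IsSnark (Gr k) where
  cubic := cubic_Gr hI hG
  conn := ((hT (2 * k + 2) (by omega)).1.connected).mono (tr_le' hI hG)
  cyc := fun A h1 h2 => cyc_Gr hI hG hC A h1 h2
  girth := girth_Gr hI hG
  col := col_Gr hI hG hN

end Pool.Agent.H802.RS
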