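import Pool.Agent.H802.RS.F3

/-! The rotation and the final theorem. -/

namespace Pool.Agent.H802.RS

variable {k : ℕ}

theorem lvl_of_ncard (hT : StmT) {i : ℕ} (hi : 1 ≤ i) (v : TV i) :
    ((tr i).neighborSet v).ncard = 1 ↔ v.1.1 = i := by
  rw [(hT i hi).2.1 v]
  split_ifs with h
  · simp [h]
  · simp [h]

theorem pow_W (k : ℕ) : 3 * 2 ^ (2 * k + 2 - 1) = W k := by
  show 3 * 2 ^ (2 * k + 1) = 6 * 4 ^ k
  rw [pow_succ, pow_mul]
  norm_num
  ring

theorem pow_W' (k : ℕ) : 2 ^ (2 * k + 2 - 1) = 2 * 4 ^ k := by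
  show 2 ^ (2 * k + 1) = 2 * 4 ^ k
  rw [pow_succ, pow_mul]
  norm_num
  ring

/-- the labelling of the leaves -/
noncomputable def labE (hT : StmT) (k : ℕ) :
    {v // ((tr (2 * k + 2)).neighborSet v).ncard = 1} ≃ Fin (3 * 2 ^ (2 * k + 2 - 1)) where
  toFun v := ⟨v.1.1.2, by
    rw [pow_W]
    exact lt_W v.1 ((lvl_of_ncard hT (by omega) v.1).1 v.2)⟩
  invFun b := ⟨vx (2 * k + 2) (2 * k + 2) b.1, by
    rw [lvl_of_ncard hT (by omega), vx_val le_rfl]
    exact b.2⟩
  left_inv v := by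
    apply Subtype.ext
    show vx (2 * k + 2) (2 * k + 2) v.1.1.2 = v.1
    have h1 := (lvl_of_ncard hT (by omega) v.1).1 v.2
    have h2 := vx_self v.1
    rw [h1] at h2
    exact h2
  right_inv b := by
    apply Fin.ext
    show (vx (2 * k + 2) (2 * k + 2) b.1).1.2 = b.1
    have h : (b : ℕ) < wd (2 * k + 2) := b.2
    rw [vx_val le_rfl h]

theorem one_le_lvl {i : ℕ} {v : TV i} (h : v ≠ ctr i) : 1 ≤ v.1.1 := by
  by_contra hc
  apply h
  have h0 : v.1.1 = 0 := by omega
  have h1 := v.2.2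
  rw [h0] at h1
  have h2 : v.1.2 < 1 := h1
  exact Subtype.ext (Prod.ext h0 (by show v.1.2 = 0; omega))

theorem rs_Gr (hI : StmI) (hG : StmG) (hC : StmC) (hT : StmT) (hN : StmN) :
    IsRotationSnark (Gr k) (2 * k + 2) where
  two_le := by omega
  snark := snark_Gr hI hG hC hT hN
  rot := by
    obtain ⟨t1, t2, t3, t4⟩ := hT (2 * k + 2) (by omega)
    refine ⟨tr (2 * k + 2), ctr (2 * k + 2), labE hT k, tr_le' hI hG, ⟨t1, ?_, ?_, ?_⟩, ?_, ?_⟩
    · intro v
      rw [t2 v]
      split_ifs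
      · exact Or.inl rfl
      · exact Or.inr rfl
    · rw [t2]
      rw [if_neg]
      show ¬ 0 = 2 * k + 2
      omega
    · intro v hv
      rw [t3 v]
      exact (lvl_of_ncard hT (by omega) v).1 hv
    · intro v hv a b c hab hbc ha hc
      have hl := one_le_lvl hv
      have la := (lvl_of_ncard hT (by omega) a.1).1 a.2
      have lb := (lvl_of_ncard hT (by omega) b.1).1 b.2
      have lc := (lvl_of_ncard hT (by omega) c.1).1 c.2
      rw [t4 v a hl la] at ha
      rw [t4 v c hl lc] at hc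
      rw [t4 v b hl lb]
      have hab' : a.1.1.2 < b.1.1.2 := hab
      have hbc' : b.1.1.2 < c.1.1.2 := hbc
      apply le_antisymm
      · rw [← hc]
        exact Nat.div_le_div_right hbc'.le
      · rw [← ha]
        exact Nat.div_le_div_right hab'.le
    · intro a b a' b' hadj ha hb
      have la := (lvl_of_ncard hT (by omega) a.1).1 a.2
      have lb := (lvl_of_ncard hT (by omega) b.1).1 b.2
      have la' := (lvl_of_ncard hT (by omega) a'.1).1 a'.2
      have lb' := (lvl_of_ncard hT (by omega) b'.1).1 b'.2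
      have ha' : a'.1.1.2 = (a.1.1.2 + 2 ^ (2 * k + 2 - 1)) % (3 * 2 ^ (2 * k + 2 - 1)) := ha
      have hb' : b'.1.1.2 = (b.1.1.2 + 2 ^ (2 * k + 2 - 1)) % (3 * 2 ^ (2 * k + 2 - 1)) := hb
      rw [pow_W, pow_W'] at ha' hb'
      rw [adj_Gr hI hG] at hadj ⊢
      rcases hadj with h | h | h
      · have := h.1
        omega
      · have := h.1
        omega
      · obtain ⟨_, _, s, h3⟩ := h
        right
        right
        refine ⟨la', lb', s, ?_⟩
        have hr := (hI k).rot a.1.1.2 s (lt_W a.1 la)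
        rw [ha', hb']
        unfold nb
        rw [hr]
        unfold nb at h3
        show ((sg k a.1.1.2 s).1 + 2 * 4 ^ k) % W k = _
        rw [h3]

theorem not_iso {m n : ℕ} (h : m < n) (e : TV (2 * m + 2) ≃ TV (2 * n + 2)) : False := by
  let f : TV (2 * m + 2) → TV (2 * n + 2) := fun v => ⟨v.1, ⟨by have := v.2.1; omega, v.2.2⟩⟩
  have hf : Function.Injective f := by
    intro u v huv
    exact Subtype.ext (congrArg (fun w : TV (2 * n + 2) => w.1) huv)
  have hs : Function.Surjective (f ∘ e.symm) :=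
    Finite.injective_iff_surjective.1 (hf.comp e.symm.injective)
  obtain ⟨u, hu⟩ := hs (vx (2 * n + 2) (2 * n + 2) 0)
  have h1 : (vx (2 * n + 2) (2 * n + 2) 0).1 = (2 * n + 2, 0) := vx_val le_rfl (wd_pos _)
  rw [← hu] at h1
  have h2 : (e.symm u).1.1 = 2 * n + 2 := congrArg Prod.fst h1
  have h3 := (e.symm u).2.1
  omega

theorem main (hI : StmI) (hG : StmG) (hC : StmC) (hT : StmT) (hN : StmN) :
    ∃ (V : ℕ → Type) (G : ∀ n, SimpleGraph (V n)) (i : ℕ → ℕ), (∀ n, Finite (V n)) ∧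
      (∀ n, IsRotationSnark (G n) (i n)) ∧ ∀ m n, m ≠ n → IsEmpty (G m ≃g G n) := by
  refine ⟨fun k => TV (2 * k + 2), fun k => Gr k, fun k => 2 * k + 2, fun k => inferInstance,
    fun k => rs_Gr hI hG hC hT hN, ?_⟩
  intro m n h
  refine ⟨fun e => ?_⟩
  rcases lt_or_gt_of_ne h with h | h
  · exact not_iso h e.toEquiv
  · exact not_iso h e.toEquiv.symm

end Pool.Agent.H802.RS
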