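import Pool.Agent.H802.RS.Defs

/-! Pieces I and G: arithmetic of the involution `sg`. -/

set_option autoImplicit false

namespace Pool.Agent.H802.RS

lemma ext_eq (x : ℕ) (s : Bool) : ext x s = 4 * x + x % 2 + 2 * s.toNat := by
  unfold ext
  rcases Nat.mod_two_eq_zero_or_one x with h | h <;> cases s <;> simp [h]

lemma sg_false (k b : ℕ) : sg (k + 1) b false = (4 * (b / 4) + (3 - b % 4), false) := rfl

lemma sg_true_ext (k a : ℕ) (s : Bool) :
    sg (k + 1) (ext a s) true = (ext (sg k a s).1 (sg k a s).2, true) := by
  have hd : ext a s / 4 = a := by
    rw [ext_eq]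
    cases s <;> simp <;> omega
  rcases Nat.mod_two_eq_zero_or_one a with h | h
  · have h2 : ext a s % 2 = 0 := by
      rw [ext_eq]
      cases s <;> simp <;> omega
    have h3 : decide (ext a s % 4 = 2) = s := by
      rw [ext_eq]
      cases s
      · simp
        omega
      · simp
        omega
    show (if ext a s / 4 % 2 = 0 then
        (if ext a s % 2 = 1 then (ext a s + 3, true)
         else (ext (sg k (ext a s / 4) (decide (ext a s % 4 = 2))).1
          (sg k (ext a s / 4) (decide (ext a s % 4 = 2))).2, true))
      else
        (if ext a s % 2 = 0 then (ext a s - 3, true)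
         else (ext (sg k (ext a s / 4) (decide (ext a s % 4 = 3))).1
          (sg k (ext a s / 4) (decide (ext a s % 4 = 3))).2, true))) = _
    rw [h3, hd, if_pos h, if_neg (by omega)]
  · have h2 : ext a s % 2 = 1 := by
      rw [ext_eq]
      cases s <;> simp <;> omega
    have h3 : decide (ext a s % 4 = 3) = s := by
      rw [ext_eq]
      cases s
      · simp
        omega
      · simp
        omega
    show (if ext a s / 4 % 2 = 0 then
        (if ext a s % 2 = 1 then (ext a s + 3, true)
         else (ext (sg k (ext a s / 4) (decide (ext a s % 4 = 2))).1
          (sg k (ext a s / 4) (decide (ext a s % 4 = 2))).2, true))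
      else
        (if ext a s % 2 = 0 then (ext a s - 3, true)
         else (ext (sg k (ext a s / 4) (decide (ext a s % 4 = 3))).1
          (sg k (ext a s / 4) (decide (ext a s % 4 = 3))).2, true))) = _
    rw [h3, hd, if_neg (by omega), if_neg (by omega)]

lemma sg_true_in0 (k b : ℕ) (h : b / 4 % 2 = 0) (h' : b % 2 = 1) :
    sg (k + 1) b true = (b + 3, true) := by
  show (if b / 4 % 2 = 0 then
        (if b % 2 = 1 then (b + 3, true)
         else (ext (sg k (b / 4) (decide (b % 4 = 2))).1
          (sg k (b / 4) (decide (b % 4 = 2))).2, true))
      else
        (if b % 2 = 0 then (b - 3, true)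
         else (ext (sg k (b / 4) (decide (b % 4 = 3))).1
          (sg k (b / 4) (decide (b % 4 = 3))).2, true))) = _
  rw [if_pos h, if_pos h']

lemma sg_true_in1 (k b : ℕ) (h : b / 4 % 2 = 1) (h' : b % 2 = 0) :
    sg (k + 1) b true = (b - 3, true) := by
  show (if b / 4 % 2 = 0 then
        (if b % 2 = 1 then (b + 3, true)
         else (ext (sg k (b / 4) (decide (b % 4 = 2))).1
          (sg k (b / 4) (decide (b % 4 = 2))).2, true))
      else
        (if b % 2 = 0 then (b - 3, true)
         else (ext (sg k (b / 4) (decide (b % 4 = 3))).1
          (sg k (b / 4) (decide (b % 4 = 3))).2, true))) = _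
  rw [if_neg (by omega), if_pos h']

/-- external half-edges -/
lemma exists_ext (b : ℕ) (h : b % 2 = b / 4 % 2) : ∃ s : Bool, b = ext (b / 4) s := by
  refine ⟨decide (2 ≤ b % 4), ?_⟩
  rw [ext_eq]
  by_cases h2 : 2 ≤ b % 4
  · simp [h2]
    omega
  · simp [h2]
    omega

lemma W_succ (k : ℕ) : W (k + 1) = 4 * W k := by
  unfold W
  rw [pow_succ]
  ring

lemma W_even (k : ℕ) : W k % 2 = 0 := by
  unfold W
  omega

lemma ext_lt {x w : ℕ} (s : Bool) (h : x < w) : ext x s < 4 * w := by
  rw [ext_eq]
  cases s <;> simp <;> omega

theorem stmI : StmI := by
  intro k
  induction k with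
  | zero =>
    refine ⟨?_, ?_, ?_⟩
    · intro a s h
      have h6 : a < 6 := h
      interval_cases a <;> cases s <;> decide
    · intro a s h
      have h6 : a < 6 := h
      interval_cases a <;> cases s <;> decide
    · intro a s h
      have h6 : a < 6 := h
      interval_cases a <;> cases s <;> decide
  | succ k ih =>
    have hW := W_succ k
    have hE := W_even k
    refine ⟨?_, ?_, ?_⟩
    · intro b s hb
      rw [hW] at hb ⊢
      cases s
      · rw [sg_false]
        simp only
        omega
      · by_cases h : b % 2 = b / 4 % 2
        · obtain ⟨s, hs⟩ := exists_ext b h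
          rw [hs, sg_true_ext]
          exact ext_lt _ (ih.lt _ _ (by omega))
        · rcases Nat.mod_two_eq_zero_or_one (b / 4) with h2 | h2
          · rw [sg_true_in0 k b h2 (by omega)]
            simp only
            omega
          · rw [sg_true_in1 k b h2 (by omega)]
            simp only
            omega
    · intro b s hb
      rw [hW] at hb
      cases s
      · rw [sg_false]
        simp only
        rw [sg_false]
        refine Prod.ext ?_ rfl
        simp only
        omega
      · by_cases h : b % 2 = b / 4 % 2
        · obtain ⟨s, hs⟩ := exists_ext b h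
          rw [hs, sg_true_ext]
          simp only
          rw [sg_true_ext, ih.inv _ _ (by omega)]
        · rcases Nat.mod_two_eq_zero_or_one (b / 4) with h2 | h2
          · rw [sg_true_in0 k b h2 (by omega)]
            simp only
            rw [sg_true_in1 k (b + 3) (by omega) (by omega)]
            refine Prod.ext ?_ rfl
            simp only
            omega
          · rw [sg_true_in1 k b h2 (by omega)]
            simp only
            rw [sg_true_in0 k (b - 3) (by omega) (by omega)]
            refine Prod.ext ?_ rfl
            simp only
            omega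
    · intro b s hb
      rw [hW] at hb
      have hm : 2 * 4 ^ (k + 1) = 4 * (2 * 4 ^ k) := by
        rw [pow_succ]
        ring
      have hWm : W k = 3 * (2 * 4 ^ k) := by
        unfold W
        ring
      have hr := ih.rot
      set m := 2 * 4 ^ k with hmdef
      have hme : m % 2 = 0 := by omega
      rw [hm, hW]
      have key : ∀ a j : ℕ, j < 4 → (4 * a + j + 4 * m) % (4 * W k) = 4 * ((a + m) % W k) + j := by
        intro a j hj
        have e1 : 4 * a + j + 4 * m = j + 4 * (a + m) := by ring
        rw [e1, Nat.mod_mul, Nat.add_mul_mod_self_left, Nat.mod_eq_of_lt hj,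
          Nat.add_mul_div_left _ _ (by norm_num : 0 < 4), Nat.div_eq_of_lt hj, zero_add]
        ring
      have hb4 : (b + 4 * m) % (4 * W k) = 4 * ((b / 4 + m) % W k) + b % 4 := by
        rw [← key (b / 4) (b % 4) (Nat.mod_lt _ (by norm_num))]
        congr 2
        omega
      have hpar : ∀ a : ℕ, (a + m) % W k % 2 = a % 2 := by
        intro a
        have h1 : (a + m) % W k % 2 = (a + m) % 2 := by
          refine Nat.mod_mod_of_dvd _ ?_
          omega
        omega
      have hWpos : 0 < W k := by
        unfold W
        positivity
      have hlt : ∀ a : ℕ, (a + m) % W k < W k := fun a => Nat.mod_lt _ hWpos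
      rw [hb4]
      cases s
      · rw [sg_false, sg_false]
        refine Prod.ext ?_ rfl
        simp only
        rw [key (b / 4) (3 - b % 4) (by omega)]
        omega
      · by_cases h : b % 2 = b / 4 % 2
        · obtain ⟨s, hs⟩ := exists_ext b h
          have e1 : 4 * ((b / 4 + m) % W k) + b % 4 = ext ((b / 4 + m) % W k) s := by
            rw [ext_eq]
            have h3 := hpar (b / 4)
            rw [ext_eq] at hs
            cases s
            · simp only [Bool.toNat_false] at hs ⊢
              omega
            · simp only [Bool.toNat_true] at hs ⊢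
              omega
          rw [e1, sg_true_ext, hr (b / 4) s (by omega)]
          have e2 : sg (k + 1) b true = (ext (sg k (b / 4) s).1 (sg k (b / 4) s).2, true) := by
            conv_lhs => rw [hs]
            exact sg_true_ext k (b / 4) s
          rw [e2]
          refine Prod.ext ?_ rfl
          simp only
          set x := (sg k (b / 4) s).1
          set s' := (sg k (b / 4) s).2
          rw [ext_eq, ext_eq, hpar x]
          have e3 : 4 * x + x % 2 + 2 * s'.toNat + 4 * m =
              4 * x + (x % 2 + 2 * s'.toNat) + 4 * m := by ring
          rw [e3, key x (x % 2 + 2 * s'.toNat) (by cases s' <;> simp <;> omega)]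
          ring
        · rcases Nat.mod_two_eq_zero_or_one (b / 4) with h2 | h2
          · have h3 := hpar (b / 4)
            rw [sg_true_in0 k b h2 (by omega), sg_true_in0 k _ (by omega) (by omega)]
            refine Prod.ext ?_ rfl
            simp only
            have e1 : b + 3 + 4 * m = 4 * (b / 4 + 1) + (b % 4 - 1) + 4 * m := by omega
            rw [e1, key _ _ (by omega)]
            have e2 : (b / 4 + 1 + m) % W k = (b / 4 + m) % W k + 1 := by
              have h5 := hlt (b / 4)
              have h6 : b / 4 + 1 + m = (b / 4 + m) + 1 := by ring
              rw [h6, Nat.add_mod, Nat.mod_eq_of_lt (a := 1) (by omega)]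
              exact Nat.mod_eq_of_lt (by omega)
            omega
          · have h3 := hpar (b / 4)
            have h3' := hpar (b / 4 - 1)
            rw [sg_true_in1 k b h2 (by omega), sg_true_in1 k _ (by omega) (by omega)]
            refine Prod.ext ?_ rfl
            simp only
            have e1 : b - 3 + 4 * m = 4 * (b / 4 - 1) + (b % 4 + 1) + 4 * m := by omega
            rw [e1, key _ _ (by omega)]
            have e2 : (b / 4 + m) % W k = (b / 4 - 1 + m) % W k + 1 := by
              have h5 := hlt (b / 4 - 1)
              have h6 : b / 4 + m = (b / 4 - 1 + m) + 1 := by omega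
              rw [h6, Nat.add_mod, Nat.mod_eq_of_lt (a := 1) (by omega)]
              exact Nat.mod_eq_of_lt (by omega)
            omega

/-- the block of the outer neighbour -/
lemma blk (k b : ℕ) (hb : b < W (k + 1)) (hG : Girthy k) :
    (b % 2 = b / 4 % 2 → nb (k + 1) b true / 4 / 2 ≠ b / 4 / 2) ∧
    (b % 2 ≠ b / 4 % 2 → nb (k + 1) b true / 4 / 2 = b / 4 / 2 ∧
      nb (k + 1) b true / 4 ≠ b / 4) := by
  rw [W_succ] at hb
  constructor
  · intro h
    obtain ⟨s, hs⟩ := exists_ext b h
    have e2 : nb (k + 1) b true = ext (sg k (b / 4) s).1 (sg k (b / 4) s).2 := by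
      unfold nb
      conv_lhs => rw [hs]
      rw [sg_true_ext]
    have h3 := hG.sib (b / 4) s (by omega)
    unfold nb at h3
    rw [e2]
    have h4 : ext (sg k (b / 4) s).1 (sg k (b / 4) s).2 / 4 = (sg k (b / 4) s).1 := by
      rw [ext_eq]
      cases (sg k (b / 4) s).2 <;> simp <;> omega
    rw [h4]
    exact h3
  · intro h
    rcases Nat.mod_two_eq_zero_or_one (b / 4) with h2 | h2
    · unfold nb
      rw [sg_true_in0 k b h2 (by omega)]
      simp only
      omega
    · unfold nb
      rw [sg_true_in1 k b h2 (by omega)]
      simp only
      omega

lemma nb_false (k b : ℕ) : nb (k + 1) b false = 4 * (b / 4) + (3 - b % 4) := rfl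

lemma nb_nb_true (k b : ℕ) (hb : b < W (k + 1)) : nb (k + 1) (nb (k + 1) b true) true = b := by
  have h := (stmI (k + 1)).inv b true hb
  have h2 : (sg (k + 1) b true).2 = true := by
    by_cases h : b % 2 = b / 4 % 2
    · obtain ⟨s, hs⟩ := exists_ext b h
      rw [hs, sg_true_ext]
    · rcases Nat.mod_two_eq_zero_or_one (b / 4) with h2 | h2
      · rw [sg_true_in0 k b h2 (by omega)]
      · rw [sg_true_in1 k b h2 (by omega)]
  rw [h2] at h
  unfold nb
  rw [h]

theorem stmG : StmG := by
  intro k
  induction k with
  | zero =>
    refine ⟨?_, ?_, ?_, ?_, ?_⟩
    · intro a h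
      have h6 : a < 6 := h
      interval_cases a <;> decide
    · intro a s h
      have h6 : a < 6 := h
      interval_cases a <;> cases s <;> decide
    · intro a h
      have h6 : a < 6 := h
      interval_cases a <;> decide
    · intro a s s' h
      have h6 : a < 6 := h
      interval_cases a <;> cases s <;> cases s' <;> decide
    · intro a s s' h
      have h6 : a < 6 := h
      interval_cases a <;> cases s <;> cases s' <;> decide
  | succ k ih =>
    have hlt := (stmI (k + 1)).lt
    have hb1 : ∀ b, b < W (k + 1) → nb (k + 1) b true / 4 ≠ b / 4 := by
      intro b hb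
      have h := blk k b hb ih
      by_cases h1 : b % 2 = b / 4 % 2
      · have := h.1 h1
        omega
      · exact (h.2 h1).2
    refine ⟨?_, ?_, ?_, ?_, ?_⟩
    · intro b hb
      have h := hb1 b hb
      rw [nb_false]
      omega
    · intro b s hb
      cases s
      · rw [nb_false]
        omega
      · have h := hb1 b hb
        omega
    · intro b hb
      have h := hb1 b hb
      rw [nb_false]
      omega
    · intro b s s' hb
      cases s
      · -- first step inside the block
        simp only [Bool.not_false]
        cases s'
        · rw [nb_false, nb_false]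
          have h := hb1 b hb
          omega
        · have hb' : nb (k + 1) b false < W (k + 1) := hlt b false hb
          have h1 := blk k b hb ih
          have h2 := blk k _ hb' ih
          have h3 : nb (k + 1) b false = 4 * (b / 4) + (3 - b % 4) := nb_false k b
          have h4 : nb (k + 1) b false / 4 = b / 4 := by omega
          have h5 : nb (k + 1) b false % 2 ≠ b % 2 := by omega
          by_cases h6 : b % 2 = b / 4 % 2
          · have h7 := h1.1 h6
            have h8 := (h2.2 (by omega)).1
            intro h9
            rw [h9] at h8
            omega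
          · have h7 := (h1.2 h6).1
            have h8 := h2.1 (by omega)
            intro h9
            rw [h9] at h8
            omega
      · simp only [Bool.not_true]
        cases s'
        · have h := hb1 b hb
          rw [nb_false, nb_false]
          omega
        · rw [nb_nb_true k b hb, nb_false]
          omega
    · intro b s s' hb h1 h2
      cases s
      · exfalso
        apply h1
        rw [nb_false, nb_false]
        omega
      · cases s'
        · have hb' : nb (k + 1) b false < W (k + 1) := hlt b false hb
          have k1 := blk k b hb ih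
          have k2 := blk k _ hb' ih
          have h3 : nb (k + 1) b false = 4 * (b / 4) + (3 - b % 4) := nb_false k b
          have h4 : nb (k + 1) b false / 4 = b / 4 := by omega
          have h5 : nb (k + 1) b false % 2 ≠ b % 2 := by omega
          intro h9
          rw [nb_false k (nb (k + 1) b true)] at h9
          by_cases h6 : b % 2 = b / 4 % 2
          · have h7 := k1.1 h6
            have h8 := (k2.2 (by omega)).1
            omega
          · have h7 := (k1.2 h6).1
            have h8 := k2.1 (by omega)
            omega
        · exact absurd (nb_nb_true k b hb) h2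

end Pool.Agent.H802.RS
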