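import Pool.Agent.H802.RS.Defs2

/-! Rotation snarks (MP_3688cb_co), piece T: the complete tree with centre of degree three. -/

namespace Pool.Agent.H802.RS

theorem T_adj {i : ℕ} (p q : TV i) : (tr i).Adj p q ↔
    (q.1.1 = p.1.1 + 1 ∧ p.1.2 = par p.1.1 q.1.2) ∨
    (p.1.1 = q.1.1 + 1 ∧ q.1.2 = par q.1.1 p.1.2) := by
  unfold tr
  rw [SimpleGraph.fromRel_adj]
  constructor
  · rintro ⟨_, h⟩
    exact h
  · intro h
    refine ⟨?_, h⟩
    rintro rfl
    omega

theorem T_ext {i : ℕ} {p q : TV i} (h1 : p.1.1 = q.1.1) (h2 : p.1.2 = q.1.2) : p = q :=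
  Subtype.ext (Prod.ext h1 h2)

theorem T_wd_par {j a : ℕ} (h : a < wd (j + 1)) : par j a < wd j := by
  unfold par
  cases j with
  | zero => simp [wd]
  | succ j =>
    simp only [wd, pow_succ] at h ⊢
    rw [if_neg (Nat.succ_ne_zero j)]
    omega

/-- every vertex of positive level has a parent -/
theorem T_par {i : ℕ} (v : TV i) (h : 1 ≤ v.1.1) :
    ∃ w : TV i, v.1.1 = w.1.1 + 1 ∧ w.1.2 = par w.1.1 v.1.2 := by
  obtain ⟨⟨j, a⟩, h1, h2⟩ := v
  simp only at h h1 h2
  obtain ⟨j, rfl⟩ : ∃ j', j = j' + 1 := ⟨j - 1, by omega⟩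
  refine ⟨⟨(j, par j a), by show j ≤ i; omega, T_wd_par h2⟩, rfl, rfl⟩

/-- a vertex with index `a` at level `j + 1` -/
theorem T_mk {i : ℕ} (j a : ℕ) (h1 : j ≤ i) (h2 : a < wd j) :
    ∃ w : TV i, w.1.1 = j ∧ w.1.2 = a := ⟨⟨(j, a), h1, h2⟩, rfl, rfl⟩

theorem T_lev {i : ℕ} {p q : TV i} (h : (tr i).Adj p q) :
    p.1.1 = q.1.1 + 1 ∨ q.1.1 = p.1.1 + 1 := by
  rw [T_adj] at h
  omega

theorem T_zero {i : ℕ} {v : TV i} (h : v.1.1 = 0) : v = ctr i := by
  refine T_ext h ?_
  have h2 := v.2.2
  rw [h] at h2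
  simp only [wd] at h2
  show v.1.2 = 0
  omega

theorem T_reach {i : ℕ} : ∀ (n : ℕ) (v : TV i), v.1.1 = n →
    ∃ p : (tr i).Walk (ctr i) v, p.length = n := by
  intro n
  induction n with
  | zero =>
    intro v hv
    rw [T_zero hv]
    exact ⟨SimpleGraph.Walk.nil, rfl⟩
  | succ n ih =>
    intro v hv
    obtain ⟨w, hw1, hw2⟩ := T_par v (by omega)
    obtain ⟨p, hp⟩ := ih w (by omega)
    have hadj : (tr i).Adj w v := (T_adj w v).2 (Or.inl ⟨hw1, hw2⟩)
    refine ⟨p.concat hadj, ?_⟩
    rw [SimpleGraph.Walk.length_concat, hp]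

theorem T_conn (i : ℕ) : (tr i).Connected := by
  rw [SimpleGraph.connected_iff_exists_forall_reachable]
  refine ⟨ctr i, fun v => ?_⟩
  obtain ⟨p, -⟩ := T_reach v.1.1 v rfl
  exact ⟨p⟩

theorem T_len {i : ℕ} {u v : TV i} (p : (tr i).Walk u v) : v.1.1 ≤ u.1.1 + p.length := by
  induction p with
  | nil => simp
  | cons h p ih =>
    have := T_lev h
    rw [SimpleGraph.Walk.length_cons]
    omega

theorem T_dist {i : ℕ} (u v : TV i) : v.1.1 ≤ u.1.1 + (tr i).dist u v := by
  obtain ⟨p, hp⟩ := (T_conn i).exists_walk_length_eq_dist u v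
  rw [← hp]
  exact T_len p

theorem T_dctr {i : ℕ} (v : TV i) : (tr i).dist (ctr i) v = v.1.1 := by
  apply le_antisymm
  · obtain ⟨p, hp⟩ := T_reach v.1.1 v rfl
    rw [← hp]
    exact SimpleGraph.dist_le p
  · have h := T_dist (ctr i) v
    have h0 : (ctr i).1.1 = 0 := rfl
    omega

/-- walks which always go down -/
theorem T_down {i : ℕ} {u v : TV i} (p : (tr i).Walk u v) : 1 ≤ u.1.1 →
    v.1.1 = u.1.1 + p.length → v.1.2 / 2 ^ p.length = u.1.2 := by
  induction p with
  | nil =>
    intro _ _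
    simp
  | @cons u w v h p ih =>
    intro h1 h2
    rw [SimpleGraph.Walk.length_cons] at h2 ⊢
    have h3 := T_len p
    have h4 : w.1.1 = u.1.1 + 1 ∧ u.1.2 = par u.1.1 w.1.2 := by
      rw [T_adj] at h
      omega
    have h5 := ih (by omega) (by omega)
    rw [pow_succ, ← Nat.div_div_eq_div_mul, h5, h4.2]
    unfold par
    rw [if_neg (by omega)]

theorem T_up {i : ℕ} : ∀ (d : ℕ) (v w : TV i), 1 ≤ v.1.1 → w.1.1 = v.1.1 + d →
    w.1.2 / 2 ^ d = v.1.2 → (tr i).dist v w ≤ d := by
  intro d
  induction d with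
  | zero =>
    intro v w h1 h2 h3
    have : v = w := T_ext (by omega) (by simpa using h3.symm)
    rw [this]
    simp
  | succ d ih =>
    intro v w h1 h2 h3
    obtain ⟨x, hx1, hx2⟩ := T_par w (by omega)
    have h4 : x.1.2 = w.1.2 / 2 := by
      rw [hx2]
      unfold par
      rw [if_neg (by omega)]
    have h5 := ih v x h1 (by omega) (by
      rw [h4, Nat.div_div_eq_div_mul, ← h3, pow_succ, mul_comm])
    have hadj : (tr i).Adj x w := (T_adj x w).2 (Or.inl ⟨hx1, hx2⟩)
    have h6 : (tr i).dist x w = 1 := SimpleGraph.dist_eq_one_iff_adj.2 hadj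
    have h7 := (T_conn i).dist_triangle (u := v) (v := x) (w := w)
    omega

theorem T_uniq {i : ℕ} {v x y : TV i} (hx : (tr i).Adj v x) (hy : (tr i).Adj v y)
    (hx1 : x.1.1 ≤ v.1.1) (hy1 : y.1.1 ≤ v.1.1) : x = y := by
  rw [T_adj] at hx hy
  have h1 : v.1.1 = x.1.1 + 1 ∧ x.1.2 = par x.1.1 v.1.2 := by omega
  have h2 : v.1.1 = y.1.1 + 1 ∧ y.1.2 = par y.1.1 v.1.2 := by omega
  have h3 : x.1.1 = y.1.1 := by omega
  refine T_ext h3 ?_
  rw [h1.2, h2.2, h3]

theorem T_acyc (i : ℕ) : (tr i).IsAcyclic := by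
  intro u c hc
  obtain ⟨v, hv, hmax⟩ : ∃ v ∈ c.support, ∀ w ∈ c.support, w.1.1 ≤ v.1.1 := by
    obtain ⟨v, hv, h⟩ := Finset.exists_max_image c.support.toFinset (fun w : TV i => w.1.1)
      ⟨u, by simp⟩
    exact ⟨v, by simpa using hv, fun w hw => h w (by simpa using hw)⟩
  have hsub : ∀ w ∈ (c.rotate v hv).support, w ∈ c.support := by
    intro w hw
    unfold SimpleGraph.Walk.rotate at hw
    rw [SimpleGraph.Walk.mem_support_append_iff] at hw
    rcases hw with h | h
    · exact c.support_dropUntil_subset_support hv h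
    · exact c.support_takeUntil_subset_support hv h
  have hc' := hc.rotate hv
  have hnil : ¬ (c.rotate v hv).Nil := hc'.not_nil
  have h1 := (c.rotate v hv).adj_snd hnil
  have h2 := (c.rotate v hv).adj_penultimate hnil
  have h3 := hc'.snd_ne_penultimate
  refine h3 (T_uniq h1 h2.symm (hmax _ (hsub _ ?_)) (hmax _ (hsub _ ?_)))
  · exact SimpleGraph.Walk.getVert_mem_support _ _
  · exact SimpleGraph.Walk.getVert_mem_support _ _

theorem T_deg {i : ℕ} (hi : 1 ≤ i) (v : TV i) :
    ((tr i).neighborSet v).ncard = if v.1.1 = i then 1 else 3 := by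
  have hv1 := v.2.1
  have hv2 := v.2.2
  by_cases h0 : v.1.1 = 0
  · -- the centre
    rw [if_neg (by omega)]
    obtain ⟨a, ha1, ha2⟩ := T_mk (i := i) 1 0 hi (by simp [wd])
    obtain ⟨b, hb1, hb2⟩ := T_mk (i := i) 1 1 hi (by simp [wd])
    obtain ⟨c, hc1, hc2⟩ := T_mk (i := i) 1 2 hi (by simp [wd])
    have hv3 : v.1.2 = 0 := by
      rw [h0] at hv2
      simp only [wd] at hv2
      omega
    have e : (tr i).neighborSet v = {a, b, c} := by
      ext w
      simp only [SimpleGraph.mem_neighborSet, Set.mem_insert_iff, Set.mem_singleton_iff]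
      rw [T_adj]
      constructor
      · intro h
        have hw : w.1.1 = 1 := by omega
        have hw2 := w.2.2
        rw [hw] at hw2
        simp only [wd] at hw2
        have : w.1.2 = 0 ∨ w.1.2 = 1 ∨ w.1.2 = 2 := by omega
        rcases this with h | h | h
        · exact Or.inl (T_ext (by omega) (by omega))
        · exact Or.inr (Or.inl (T_ext (by omega) (by omega)))
        · exact Or.inr (Or.inr (T_ext (by omega) (by omega)))
      · intro h
        have hw : w.1.1 = 1 := by
          rcases h with rfl | rfl | rfl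
          · exact ha1
          · exact hb1
          · exact hc1
        left
        refine ⟨by omega, ?_⟩
        rw [hv3, h0]
        simp [par]
    rw [e]
    refine Set.ncard_eq_three.2 ⟨a, b, c, ?_, ?_, ?_, rfl⟩
    · intro h
      rw [h] at ha2
      omega
    · intro h
      rw [h] at ha2
      omega
    · intro h
      rw [h] at hb2
      omega
  · obtain ⟨p, hp1, hp2⟩ := T_par v (by omega)
    split_ifs with hvi
    · -- a leaf
      have e : (tr i).neighborSet v = {p} := by
        ext w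
        simp only [SimpleGraph.mem_neighborSet, Set.mem_singleton_iff]
        constructor
        · intro h
          refine T_uniq h ((T_adj v p).2 (Or.inr ⟨hp1, hp2⟩)) ?_ ?_
          · have := w.2.1
            omega
          · omega
        · rintro rfl
          exact (T_adj v w).2 (Or.inr ⟨hp1, hp2⟩)
      rw [e]
      exact Set.ncard_singleton _
    · have hw0 : wd (v.1.1 + 1) = 2 * wd v.1.1 := by
        obtain ⟨j, hj⟩ : ∃ j, v.1.1 = j + 1 := ⟨v.1.1 - 1, by omega⟩
        rw [hj]
        simp only [wd, pow_succ]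
        ring
      obtain ⟨a, ha1, ha2⟩ := T_mk (i := i) (v.1.1 + 1) (2 * v.1.2) (by omega)
        (by rw [hw0]; omega)
      obtain ⟨b, hb1, hb2⟩ := T_mk (i := i) (v.1.1 + 1) (2 * v.1.2 + 1) (by omega)
        (by rw [hw0]; omega)
      have hpar : ∀ x : ℕ, par v.1.1 x = x / 2 := by
        intro x
        unfold par
        rw [if_neg h0]
      have e : (tr i).neighborSet v = {p, a, b} := by
        ext w
        simp only [SimpleGraph.mem_neighborSet, Set.mem_insert_iff, Set.mem_singleton_iff]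
        constructor
        · intro h
          rcases (T_adj v w).1 h with h' | h'
          · rw [hpar] at h'
            have : w.1.2 = 2 * v.1.2 ∨ w.1.2 = 2 * v.1.2 + 1 := by omega
            rcases this with h'' | h''
            · exact Or.inr (Or.inl (T_ext (by omega) (by omega)))
            · exact Or.inr (Or.inr (T_ext (by omega) (by omega)))
          · left
            refine T_uniq h ((T_adj v p).2 (Or.inr ⟨hp1, hp2⟩)) ?_ ?_
            · omega
            · omega
        · rintro (rfl | rfl | rfl)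
          · exact (T_adj v w).2 (Or.inr ⟨hp1, hp2⟩)
          · refine (T_adj v w).2 (Or.inl ⟨ha1, ?_⟩)
            rw [hpar]
            omega
          · refine (T_adj v w).2 (Or.inl ⟨hb1, ?_⟩)
            rw [hpar]
            omega
      rw [e]
      refine Set.ncard_eq_three.2 ⟨p, a, b, ?_, ?_, ?_, rfl⟩
      · intro h
        rw [h] at hp1
        omega
      · intro h
        rw [h] at hp1
        omega
      · intro h
        rw [h] at ha2
        omega

/-- Piece T -/
theorem stmT : StmT := by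
  intro i hi
  refine ⟨⟨T_conn i, T_acyc i⟩, T_deg hi, T_dctr, ?_⟩
  intro v a hv ha
  rw [T_dctr, T_dctr, ha]
  have hvi := v.2.1
  have hd := T_dist v a
  constructor
  · intro h
    obtain ⟨p, hp⟩ := (T_conn i).exists_walk_length_eq_dist v a
    have h1 := T_down p hv (by omega)
    have h2 : p.length = i - v.1.1 := by omega
    rw [h2] at h1
    exact h1
  · intro h
    have h1 := T_up (i - v.1.1) v a hv (by omega) h
    omega

end Pool.Agent.H802.RS
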